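import Pool.Agent.Lib.MP_4a5b11_an.Cert
import Pool.Agent.Lib.MP_4a5b11_an.Chain

namespace Pool.Agent.FS.TakagiRank

open Set Pool.Agent.Lib.MP_4a5b11_an

theorem cnt_Z {c c' : ℝ} (h : (S 1 c').Countable) (e : 2 * c = c') : (S 0 c).Countable :=
  cnt_zero (e ▸ h)

theorem cnt_B {d : ℕ} {c c' c'' : ℝ} (hl : (S (d + 2) c').Countable) (e : 2 * c = c')
    (hr : (S d c'').Countable) (e' : 2 * c - d - 2 = c'') : (S (d + 1) c).Countable :=
  cnt_step (e ▸ hl) (e' ▸ hr)

/-- A family of sets closed under the two branch maps of the state graph. -/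
structure Fam (P : ℕ → ℝ → Set ℝ) : Prop where
  L : ∀ {d : ℕ} {c c' t : ℝ}, t ∈ P (d + 1) c' → 2 * c = c' → t / 2 ∈ P d c
  R : ∀ {d : ℕ} {c c' t : ℝ}, t ∈ P d c' → 2 * c - d - 2 = c' → (1 + t) / 2 ∈ P (d + 1) c

theorem famS : Fam S := ⟨fun h e => mem_L h e, fun h e => mem_R h e⟩

/-- The accumulation points of a state set. -/
def D (d : ℕ) (c : ℝ) : Set ℝ := derivedSet (S d c)

theorem acc_map {X Y : Set ℝ} {f : ℝ → ℝ} (hc : Continuous f) (hi : Function.Injective f)
    (h : ∀ t ∈ X, f t ∈ Y) {p : ℝ} (hp : p ∈ derivedSet X) : f p ∈ derivedSet Y := by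
  have h1 : f p ∈ derivedSet (f '' X) := hc.image_derivedSet hi ⟨p, hp, rfl⟩
  refine derivedSet_mono _ _ ?_ h1
  rintro _ ⟨t, ht, rfl⟩
  exact h t ht

theorem famD : Fam D := by
  refine ⟨fun {d c c' t} h e => ?_, fun {d c c' t} h e => ?_⟩
  · refine acc_map (f := fun t : ℝ => t / 2) (by fun_prop) ?_ (fun s hs => mem_L hs e) h
    intro a b hab
    simp only at hab
    linarith
  · refine acc_map (f := fun t : ℝ => (1 + t) / 2) (by fun_prop) ?_ (fun s hs => mem_R hs e) h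
    intro a b hab
    simp only at hab
    linarith

theorem D_subset {d : ℕ} {c t : ℝ} (h : t ∈ D d c) : t ∈ Icc (0 : ℝ) 1 :=
  (isClosed_iff_derivedSet_subset _).1 isClosed_Icc (derivedSet_mono _ _ (S_subset d c) h)

theorem D_nonempty {d : ℕ} {c : ℝ} (h : (S d c).Infinite) : (D d c).Nonempty := by
  obtain ⟨x, _, hx⟩ := h.exists_accPt_of_subset_isCompact isCompact_Icc (S_subset d c)
  exact ⟨x, hx⟩

theorem derived_level_subset (y : ℝ) : derivedSet (levelSet y) ⊆ levelSet y :=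
  (isClosed_iff_derivedSet_subset _).1
    (isClosed_Icc.inter (isClosed_eq continuous_takagi continuous_const))

end Pool.Agent.FS.TakagiRank
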