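import Pool.Agent.FS.TakagiRank.Basic

namespace Pool.Agent.FS.TakagiRank

open Set Pool.Agent.Lib.MP_4a5b11_an

theorem c_15_3344476 : (S 15 (3344476 / 266305 : ℝ)).Countable := by
  have h0 : Sub (S 15 (3344476 / 266305 : ℝ)) (S 15 (3344476 / 266305 : ℝ)) 1 := Sub.refl _
  have h1 := sub_L (d := 13) (c := (1672238 / 266305 : ℝ)) h0 (by norm_num) (by norm_num)
  have h2 := sub_R (d := 14) (c := (2966559 / 266305 : ℝ)) h1 (by norm_num) (by norm_num)
  have h3 := sub_R (d := 15) (c := (3746872 / 266305 : ℝ)) h2 (by norm_num) (by norm_num)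
  have h4 := sub_R (d := 16) (c := (4270181 / 266305 : ℝ)) h3 (by norm_num) (by norm_num)
  have h5 := sub_R (d := 17) (c := (4664988 / 266305 : ℝ)) h4 (by norm_num) (by norm_num)
  have h6 := sub_R (d := 18) (c := (4995544 / 266305 : ℝ)) h5 (by norm_num) (by norm_num)
  have h7 := sub_L (d := 17) (c := (2497772 / 266305 : ℝ)) h6 (by norm_num) (by norm_num)
  have h8 := sub_R (d := 18) (c := (3911936 / 266305 : ℝ)) h7 (by norm_num) (by norm_num)
  have h9 := sub_L (d := 17) (c := (1955968 / 266305 : ℝ)) h8 (by norm_num) (by norm_num)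
  have h10 := sub_L (d := 16) (c := (977984 / 266305 : ℝ)) h9 (by norm_num) (by norm_num)
  have h11 := sub_L (d := 15) (c := (488992 / 266305 : ℝ)) h10 (by norm_num) (by norm_num)
  have h12 := sub_L (d := 14) (c := (244496 / 266305 : ℝ)) h11 (by norm_num) (by norm_num)
  have h13 := sub_L (d := 13) (c := (122248 / 266305 : ℝ)) h12 (by norm_num) (by norm_num)
  have h14 := sub_L (d := 12) (c := (61124 / 266305 : ℝ)) h13 (by norm_num) (by norm_num)
  have h15 := sub_L (d := 11) (c := (30562 / 266305 : ℝ)) h14 (by norm_num) (by norm_num)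
  have h16 := sub_R (d := 12) (c := (1879416 / 266305 : ℝ)) h15 (by norm_num) (by norm_num)
  have h17 := sub_L (d := 11) (c := (939708 / 266305 : ℝ)) h16 (by norm_num) (by norm_num)
  have h18 := sub_R (d := 12) (c := (2333989 / 266305 : ℝ)) h17 (by norm_num) (by norm_num)
  have h19 := sub_R (d := 13) (c := (3164282 / 266305 : ℝ)) h18 (by norm_num) (by norm_num)
  have h20 := sub_L (d := 12) (c := (1582141 / 266305 : ℝ)) h19 (by norm_num) (by norm_num)
  have h21 := sub_R (d := 13) (c := (2788358 / 266305 : ℝ)) h20 (by norm_num) (by norm_num)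
  have h22 := sub_R (d := 14) (c := (3524619 / 266305 : ℝ)) h21 (by norm_num) (by norm_num)
  have h23 := sub_R (d := 15) (c := (4025902 / 266305 : ℝ)) h22 (by norm_num) (by norm_num)
  have h24 := sub_R (d := 16) (c := (4409696 / 266305 : ℝ)) h23 (by norm_num) (by norm_num)
  have h25 := sub_L (d := 15) (c := (2204848 / 266305 : ℝ)) h24 (by norm_num) (by norm_num)
  have h26 := sub_R (d := 16) (c := (3499169 / 266305 : ℝ)) h25 (by norm_num) (by norm_num)
  have h27 := sub_R (d := 17) (c := (4279482 / 266305 : ℝ)) h26 (by norm_num) (by norm_num)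
  have h28 := sub_L (d := 16) (c := (2139741 / 266305 : ℝ)) h27 (by norm_num) (by norm_num)
  have h29 := sub_R (d := 17) (c := (3599768 / 266305 : ℝ)) h28 (by norm_num) (by norm_num)
  have h30 := sub_L (d := 16) (c := (1799884 / 266305 : ℝ)) h29 (by norm_num) (by norm_num)
  have h31 := sub_L (d := 15) (c := (899942 / 266305 : ℝ)) h30 (by norm_num) (by norm_num)
  have h32 := sub_R (d := 16) (c := (2846716 / 266305 : ℝ)) h31 (by norm_num) (by norm_num)
  have h33 := sub_L (d := 15) (c := (1423358 / 266305 : ℝ)) h32 (by norm_num) (by norm_num)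
  have h34 := sub_L (d := 14) (c := (711679 / 266305 : ℝ)) h33 (by norm_num) (by norm_num)
  have h35 := sub_R (d := 15) (c := (2619432 / 266305 : ℝ)) h34 (by norm_num) (by norm_num)
  have h36 := sub_L (d := 14) (c := (1309716 / 266305 : ℝ)) h35 (by norm_num) (by norm_num)
  have h37 := sub_L (d := 13) (c := (654858 / 266305 : ℝ)) h36 (by norm_num) (by norm_num)
  have h38 := sub_L (d := 12) (c := (327429 / 266305 : ℝ)) h37 (by norm_num) (by norm_num)
  have h39 := sub_R (d := 13) (c := (2161002 / 266305 : ℝ)) h38 (by norm_num) (by norm_num)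
  have h40 := sub_L (d := 12) (c := (1080501 / 266305 : ℝ)) h39 (by norm_num) (by norm_num)
  have h41 := sub_R (d := 13) (c := (2537538 / 266305 : ℝ)) h40 (by norm_num) (by norm_num)
  have h42 := sub_L (d := 12) (c := (1268769 / 266305 : ℝ)) h41 (by norm_num) (by norm_num)
  have h43 := sub_R (d := 13) (c := (2631672 / 266305 : ℝ)) h42 (by norm_num) (by norm_num)
  have h44 := sub_R (d := 14) (c := (3446276 / 266305 : ℝ)) h43 (by norm_num) (by norm_num)
  have h45 := sub_L (d := 13) (c := (1723138 / 266305 : ℝ)) h44 (by norm_num) (by norm_num)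
  have h46 := sub_L (d := 12) (c := (861569 / 266305 : ℝ)) h45 (by norm_num) (by norm_num)
  have h47 := sub_R (d := 13) (c := (2428072 / 266305 : ℝ)) h46 (by norm_num) (by norm_num)
  have h48 := sub_R (d := 14) (c := (3344476 / 266305 : ℝ)) h47 (by norm_num) (by norm_num)
  exact countable_of_sub (S_subset _ _) (by norm_num) (by norm_num) h48

theorem c_14_1672238 : (S 14 (1672238 / 266305 : ℝ)).Countable :=
  cnt_L (d := 13) (c := (1672238 / 266305 : ℝ)) c_15_3344476 (by norm_num) (by norm_num)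

theorem c_15_2966559 : (S 15 (2966559 / 266305 : ℝ)).Countable :=
  cnt_R (d := 14) (c := (2966559 / 266305 : ℝ)) c_14_1672238 (by norm_num) (by norm_num)

theorem c_16_3746872 : (S 16 (3746872 / 266305 : ℝ)).Countable :=
  cnt_R (d := 15) (c := (3746872 / 266305 : ℝ)) c_15_2966559 (by norm_num) (by norm_num)

theorem c_17_4270181 : (S 17 (4270181 / 266305 : ℝ)).Countable :=
  cnt_R (d := 16) (c := (4270181 / 266305 : ℝ)) c_16_3746872 (by norm_num) (by norm_num)

theorem c_18_4664988 : (S 18 (4664988 / 266305 : ℝ)).Countable :=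
  cnt_R (d := 17) (c := (4664988 / 266305 : ℝ)) c_17_4270181 (by norm_num) (by norm_num)

theorem c_19_4995544 : (S 19 (4995544 / 266305 : ℝ)).Countable :=
  cnt_R (d := 18) (c := (4995544 / 266305 : ℝ)) c_18_4664988 (by norm_num) (by norm_num)

theorem c_18_2497772 : (S 18 (2497772 / 266305 : ℝ)).Countable :=
  cnt_L (d := 17) (c := (2497772 / 266305 : ℝ)) c_19_4995544 (by norm_num) (by norm_num)

theorem c_19_3911936 : (S 19 (3911936 / 266305 : ℝ)).Countable :=
  cnt_R (d := 18) (c := (3911936 / 266305 : ℝ)) c_18_2497772 (by norm_num) (by norm_num)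

theorem c_18_1955968 : (S 18 (1955968 / 266305 : ℝ)).Countable :=
  cnt_L (d := 17) (c := (1955968 / 266305 : ℝ)) c_19_3911936 (by norm_num) (by norm_num)

theorem c_17_977984 : (S 17 (977984 / 266305 : ℝ)).Countable :=
  cnt_L (d := 16) (c := (977984 / 266305 : ℝ)) c_18_1955968 (by norm_num) (by norm_num)

theorem c_16_488992 : (S 16 (488992 / 266305 : ℝ)).Countable :=
  cnt_L (d := 15) (c := (488992 / 266305 : ℝ)) c_17_977984 (by norm_num) (by norm_num)

theorem c_15_244496 : (S 15 (244496 / 266305 : ℝ)).Countable :=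
  cnt_L (d := 14) (c := (244496 / 266305 : ℝ)) c_16_488992 (by norm_num) (by norm_num)

theorem c_14_122248 : (S 14 (122248 / 266305 : ℝ)).Countable :=
  cnt_L (d := 13) (c := (122248 / 266305 : ℝ)) c_15_244496 (by norm_num) (by norm_num)

theorem c_13_61124 : (S 13 (61124 / 266305 : ℝ)).Countable :=
  cnt_L (d := 12) (c := (61124 / 266305 : ℝ)) c_14_122248 (by norm_num) (by norm_num)

theorem c_12_30562 : (S 12 (30562 / 266305 : ℝ)).Countable :=
  cnt_L (d := 11) (c := (30562 / 266305 : ℝ)) c_13_61124 (by norm_num) (by norm_num)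

theorem c_13_1879416 : (S 13 (1879416 / 266305 : ℝ)).Countable :=
  cnt_R (d := 12) (c := (1879416 / 266305 : ℝ)) c_12_30562 (by norm_num) (by norm_num)

theorem c_12_939708 : (S 12 (939708 / 266305 : ℝ)).Countable :=
  cnt_L (d := 11) (c := (939708 / 266305 : ℝ)) c_13_1879416 (by norm_num) (by norm_num)

theorem c_13_2333989 : (S 13 (2333989 / 266305 : ℝ)).Countable :=
  cnt_R (d := 12) (c := (2333989 / 266305 : ℝ)) c_12_939708 (by norm_num) (by norm_num)

theorem c_14_3164282 : (S 14 (3164282 / 266305 : ℝ)).Countable :=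
  cnt_R (d := 13) (c := (3164282 / 266305 : ℝ)) c_13_2333989 (by norm_num) (by norm_num)

theorem c_13_1582141 : (S 13 (1582141 / 266305 : ℝ)).Countable :=
  cnt_L (d := 12) (c := (1582141 / 266305 : ℝ)) c_14_3164282 (by norm_num) (by norm_num)

theorem c_14_2788358 : (S 14 (2788358 / 266305 : ℝ)).Countable :=
  cnt_R (d := 13) (c := (2788358 / 266305 : ℝ)) c_13_1582141 (by norm_num) (by norm_num)

theorem c_15_3524619 : (S 15 (3524619 / 266305 : ℝ)).Countable :=
  cnt_R (d := 14) (c := (3524619 / 266305 : ℝ)) c_14_2788358 (by norm_num) (by norm_num)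

theorem c_16_4025902 : (S 16 (4025902 / 266305 : ℝ)).Countable :=
  cnt_R (d := 15) (c := (4025902 / 266305 : ℝ)) c_15_3524619 (by norm_num) (by norm_num)

theorem c_17_4409696 : (S 17 (4409696 / 266305 : ℝ)).Countable :=
  cnt_R (d := 16) (c := (4409696 / 266305 : ℝ)) c_16_4025902 (by norm_num) (by norm_num)

theorem c_16_2204848 : (S 16 (2204848 / 266305 : ℝ)).Countable :=
  cnt_L (d := 15) (c := (2204848 / 266305 : ℝ)) c_17_4409696 (by norm_num) (by norm_num)

theorem c_17_3499169 : (S 17 (3499169 / 266305 : ℝ)).Countable :=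
  cnt_R (d := 16) (c := (3499169 / 266305 : ℝ)) c_16_2204848 (by norm_num) (by norm_num)

theorem c_18_4279482 : (S 18 (4279482 / 266305 : ℝ)).Countable :=
  cnt_R (d := 17) (c := (4279482 / 266305 : ℝ)) c_17_3499169 (by norm_num) (by norm_num)

theorem c_17_2139741 : (S 17 (2139741 / 266305 : ℝ)).Countable :=
  cnt_L (d := 16) (c := (2139741 / 266305 : ℝ)) c_18_4279482 (by norm_num) (by norm_num)

theorem c_18_3599768 : (S 18 (3599768 / 266305 : ℝ)).Countable :=
  cnt_R (d := 17) (c := (3599768 / 266305 : ℝ)) c_17_2139741 (by norm_num) (by norm_num)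

theorem c_17_1799884 : (S 17 (1799884 / 266305 : ℝ)).Countable :=
  cnt_L (d := 16) (c := (1799884 / 266305 : ℝ)) c_18_3599768 (by norm_num) (by norm_num)

theorem c_16_899942 : (S 16 (899942 / 266305 : ℝ)).Countable :=
  cnt_L (d := 15) (c := (899942 / 266305 : ℝ)) c_17_1799884 (by norm_num) (by norm_num)

theorem c_17_2846716 : (S 17 (2846716 / 266305 : ℝ)).Countable :=
  cnt_R (d := 16) (c := (2846716 / 266305 : ℝ)) c_16_899942 (by norm_num) (by norm_num)

theorem c_16_1423358 : (S 16 (1423358 / 266305 : ℝ)).Countable :=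
  cnt_L (d := 15) (c := (1423358 / 266305 : ℝ)) c_17_2846716 (by norm_num) (by norm_num)

theorem c_15_711679 : (S 15 (711679 / 266305 : ℝ)).Countable :=
  cnt_L (d := 14) (c := (711679 / 266305 : ℝ)) c_16_1423358 (by norm_num) (by norm_num)

theorem c_16_2619432 : (S 16 (2619432 / 266305 : ℝ)).Countable :=
  cnt_R (d := 15) (c := (2619432 / 266305 : ℝ)) c_15_711679 (by norm_num) (by norm_num)

theorem c_15_1309716 : (S 15 (1309716 / 266305 : ℝ)).Countable :=
  cnt_L (d := 14) (c := (1309716 / 266305 : ℝ)) c_16_2619432 (by norm_num) (by norm_num)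

theorem c_14_654858 : (S 14 (654858 / 266305 : ℝ)).Countable :=
  cnt_L (d := 13) (c := (654858 / 266305 : ℝ)) c_15_1309716 (by norm_num) (by norm_num)

theorem c_13_327429 : (S 13 (327429 / 266305 : ℝ)).Countable :=
  cnt_L (d := 12) (c := (327429 / 266305 : ℝ)) c_14_654858 (by norm_num) (by norm_num)

theorem c_14_2161002 : (S 14 (2161002 / 266305 : ℝ)).Countable :=
  cnt_R (d := 13) (c := (2161002 / 266305 : ℝ)) c_13_327429 (by norm_num) (by norm_num)

theorem c_13_1080501 : (S 13 (1080501 / 266305 : ℝ)).Countable :=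
  cnt_L (d := 12) (c := (1080501 / 266305 : ℝ)) c_14_2161002 (by norm_num) (by norm_num)

theorem c_14_2537538 : (S 14 (2537538 / 266305 : ℝ)).Countable :=
  cnt_R (d := 13) (c := (2537538 / 266305 : ℝ)) c_13_1080501 (by norm_num) (by norm_num)

theorem c_13_1268769 : (S 13 (1268769 / 266305 : ℝ)).Countable :=
  cnt_L (d := 12) (c := (1268769 / 266305 : ℝ)) c_14_2537538 (by norm_num) (by norm_num)

theorem c_14_2631672 : (S 14 (2631672 / 266305 : ℝ)).Countable :=
  cnt_R (d := 13) (c := (2631672 / 266305 : ℝ)) c_13_1268769 (by norm_num) (by norm_num)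

theorem c_15_3446276 : (S 15 (3446276 / 266305 : ℝ)).Countable :=
  cnt_R (d := 14) (c := (3446276 / 266305 : ℝ)) c_14_2631672 (by norm_num) (by norm_num)

theorem c_14_1723138 : (S 14 (1723138 / 266305 : ℝ)).Countable :=
  cnt_L (d := 13) (c := (1723138 / 266305 : ℝ)) c_15_3446276 (by norm_num) (by norm_num)

theorem c_13_861569 : (S 13 (861569 / 266305 : ℝ)).Countable :=
  cnt_L (d := 12) (c := (861569 / 266305 : ℝ)) c_14_1723138 (by norm_num) (by norm_num)

theorem c_14_2428072 : (S 14 (2428072 / 266305 : ℝ)).Countable :=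
  cnt_R (d := 13) (c := (2428072 / 266305 : ℝ)) c_13_861569 (by norm_num) (by norm_num)

theorem c_13_1214036 : (S 13 (1214036 / 266305 : ℝ)).Countable :=
  cnt_L (d := 12) (c := (1214036 / 266305 : ℝ)) c_14_2428072 (by norm_num) (by norm_num)

theorem c_12_607018 : (S 12 (607018 / 266305 : ℝ)).Countable :=
  cnt_L (d := 11) (c := (607018 / 266305 : ℝ)) c_13_1214036 (by norm_num) (by norm_num)

theorem c_13_2167644 : (S 13 (2167644 / 266305 : ℝ)).Countable :=
  cnt_R (d := 12) (c := (2167644 / 266305 : ℝ)) c_12_607018 (by norm_num) (by norm_num)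

theorem c_12_1083822 : (S 12 (1083822 / 266305 : ℝ)).Countable :=
  cnt_L (d := 11) (c := (1083822 / 266305 : ℝ)) c_13_2167644 (by norm_num) (by norm_num)

theorem c_11_541911 : (S 11 (541911 / 266305 : ℝ)).Countable :=
  cnt_L (d := 10) (c := (541911 / 266305 : ℝ)) c_12_1083822 (by norm_num) (by norm_num)

theorem c_12_2001938 : (S 12 (2001938 / 266305 : ℝ)).Countable :=
  cnt_R (d := 11) (c := (2001938 / 266305 : ℝ)) c_11_541911 (by norm_num) (by norm_num)

theorem c_13_2865104 : (S 13 (2865104 / 266305 : ℝ)).Countable :=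
  cnt_R (d := 12) (c := (2865104 / 266305 : ℝ)) c_12_2001938 (by norm_num) (by norm_num)

theorem c_12_1432552 : (S 12 (1432552 / 266305 : ℝ)).Countable :=
  cnt_L (d := 11) (c := (1432552 / 266305 : ℝ)) c_13_2865104 (by norm_num) (by norm_num)

theorem c_11_716276 : (S 11 (716276 / 266305 : ℝ)).Countable :=
  cnt_L (d := 10) (c := (716276 / 266305 : ℝ)) c_12_1432552 (by norm_num) (by norm_num)

theorem c_10_358138 : (S 10 (358138 / 266305 : ℝ)).Countable :=
  cnt_L (d := 9) (c := (358138 / 266305 : ℝ)) c_11_716276 (by norm_num) (by norm_num)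

theorem c_11_1776899 : (S 11 (1776899 / 266305 : ℝ)).Countable :=
  cnt_R (d := 10) (c := (1776899 / 266305 : ℝ)) c_10_358138 (by norm_num) (by norm_num)

theorem c_12_2619432 : (S 12 (2619432 / 266305 : ℝ)).Countable :=
  cnt_R (d := 11) (c := (2619432 / 266305 : ℝ)) c_11_1776899 (by norm_num) (by norm_num)

theorem c_11_1309716 : (S 11 (1309716 / 266305 : ℝ)).Countable :=
  cnt_L (d := 10) (c := (1309716 / 266305 : ℝ)) c_12_2619432 (by norm_num) (by norm_num)

theorem c_10_654858 : (S 10 (654858 / 266305 : ℝ)).Countable :=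
  cnt_L (d := 9) (c := (654858 / 266305 : ℝ)) c_11_1309716 (by norm_num) (by norm_num)

theorem c_11_1925259 : (S 11 (1925259 / 266305 : ℝ)).Countable :=
  cnt_R (d := 10) (c := (1925259 / 266305 : ℝ)) c_10_654858 (by norm_num) (by norm_num)

theorem c_12_2693612 : (S 12 (2693612 / 266305 : ℝ)).Countable :=
  cnt_R (d := 11) (c := (2693612 / 266305 : ℝ)) c_11_1925259 (by norm_num) (by norm_num)

theorem c_13_3210941 : (S 13 (3210941 / 266305 : ℝ)).Countable :=
  cnt_R (d := 12) (c := (3210941 / 266305 : ℝ)) c_12_2693612 (by norm_num) (by norm_num)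

theorem c_14_3602758 : (S 14 (3602758 / 266305 : ℝ)).Countable :=
  cnt_R (d := 13) (c := (3602758 / 266305 : ℝ)) c_13_3210941 (by norm_num) (by norm_num)

theorem c_15_3931819 : (S 15 (3931819 / 266305 : ℝ)).Countable :=
  cnt_R (d := 14) (c := (3931819 / 266305 : ℝ)) c_14_3602758 (by norm_num) (by norm_num)

theorem c_16_4229502 : (S 16 (4229502 / 266305 : ℝ)).Countable :=
  cnt_R (d := 15) (c := (4229502 / 266305 : ℝ)) c_15_3931819 (by norm_num) (by norm_num)

theorem c_15_2114751 : (S 15 (2114751 / 266305 : ℝ)).Countable :=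
  cnt_L (d := 14) (c := (2114751 / 266305 : ℝ)) c_16_4229502 (by norm_num) (by norm_num)

theorem c_16_3320968 : (S 16 (3320968 / 266305 : ℝ)).Countable :=
  cnt_R (d := 15) (c := (3320968 / 266305 : ℝ)) c_15_2114751 (by norm_num) (by norm_num)

theorem c_15_1660484 : (S 15 (1660484 / 266305 : ℝ)).Countable :=
  cnt_L (d := 14) (c := (1660484 / 266305 : ℝ)) c_16_3320968 (by norm_num) (by norm_num)

theorem c_14_830242 : (S 14 (830242 / 266305 : ℝ)).Countable :=
  cnt_L (d := 13) (c := (830242 / 266305 : ℝ)) c_15_1660484 (by norm_num) (by norm_num)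

theorem c_13_415121 : (S 13 (415121 / 266305 : ℝ)).Countable :=
  cnt_L (d := 12) (c := (415121 / 266305 : ℝ)) c_14_830242 (by norm_num) (by norm_num)

theorem c_14_2204848 : (S 14 (2204848 / 266305 : ℝ)).Countable :=
  cnt_R (d := 13) (c := (2204848 / 266305 : ℝ)) c_13_415121 (by norm_num) (by norm_num)

theorem c_15_3232864 : (S 15 (3232864 / 266305 : ℝ)).Countable :=
  cnt_R (d := 14) (c := (3232864 / 266305 : ℝ)) c_14_2204848 (by norm_num) (by norm_num)

theorem c_14_1616432 : (S 14 (1616432 / 266305 : ℝ)).Countable :=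
  cnt_L (d := 13) (c := (1616432 / 266305 : ℝ)) c_15_3232864 (by norm_num) (by norm_num)

theorem c_13_808216 : (S 13 (808216 / 266305 : ℝ)).Countable :=
  cnt_L (d := 12) (c := (808216 / 266305 : ℝ)) c_14_1616432 (by norm_num) (by norm_num)

theorem c_12_404108 : (S 12 (404108 / 266305 : ℝ)).Countable :=
  cnt_L (d := 11) (c := (404108 / 266305 : ℝ)) c_13_808216 (by norm_num) (by norm_num)

theorem c_13_2066189 : (S 13 (2066189 / 266305 : ℝ)).Countable :=
  cnt_R (d := 12) (c := (2066189 / 266305 : ℝ)) c_12_404108 (by norm_num) (by norm_num)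

theorem c_14_3030382 : (S 14 (3030382 / 266305 : ℝ)).Countable :=
  cnt_R (d := 13) (c := (3030382 / 266305 : ℝ)) c_13_2066189 (by norm_num) (by norm_num)

theorem c_15_3645631 : (S 15 (3645631 / 266305 : ℝ)).Countable :=
  cnt_R (d := 14) (c := (3645631 / 266305 : ℝ)) c_14_3030382 (by norm_num) (by norm_num)

theorem c_16_4086408 : (S 16 (4086408 / 266305 : ℝ)).Countable :=
  cnt_R (d := 15) (c := (4086408 / 266305 : ℝ)) c_15_3645631 (by norm_num) (by norm_num)

theorem c_15_2043204 : (S 15 (2043204 / 266305 : ℝ)).Countable :=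
  cnt_L (d := 14) (c := (2043204 / 266305 : ℝ)) c_16_4086408 (by norm_num) (by norm_num)

theorem c_14_1021602 : (S 14 (1021602 / 266305 : ℝ)).Countable :=
  cnt_L (d := 13) (c := (1021602 / 266305 : ℝ)) c_15_2043204 (by norm_num) (by norm_num)

theorem c_13_510801 : (S 13 (510801 / 266305 : ℝ)).Countable :=
  cnt_L (d := 12) (c := (510801 / 266305 : ℝ)) c_14_1021602 (by norm_num) (by norm_num)

theorem c_14_2252688 : (S 14 (2252688 / 266305 : ℝ)).Countable :=
  cnt_R (d := 13) (c := (2252688 / 266305 : ℝ)) c_13_510801 (by norm_num) (by norm_num)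

theorem c_15_3256784 : (S 15 (3256784 / 266305 : ℝ)).Countable :=
  cnt_R (d := 14) (c := (3256784 / 266305 : ℝ)) c_14_2252688 (by norm_num) (by norm_num)

theorem c_14_1628392 : (S 14 (1628392 / 266305 : ℝ)).Countable :=
  cnt_L (d := 13) (c := (1628392 / 266305 : ℝ)) c_15_3256784 (by norm_num) (by norm_num)

theorem c_13_814196 : (S 13 (814196 / 266305 : ℝ)).Countable :=
  cnt_L (d := 12) (c := (814196 / 266305 : ℝ)) c_14_1628392 (by norm_num) (by norm_num)

theorem c_12_407098 : (S 12 (407098 / 266305 : ℝ)).Countable :=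
  cnt_L (d := 11) (c := (407098 / 266305 : ℝ)) c_13_814196 (by norm_num) (by norm_num)

theorem c_13_2067684 : (S 13 (2067684 / 266305 : ℝ)).Countable :=
  cnt_R (d := 12) (c := (2067684 / 266305 : ℝ)) c_12_407098 (by norm_num) (by norm_num)

theorem c_12_1033842 : (S 12 (1033842 / 266305 : ℝ)).Countable :=
  cnt_L (d := 11) (c := (1033842 / 266305 : ℝ)) c_13_2067684 (by norm_num) (by norm_num)

theorem c_13_2381056 : (S 13 (2381056 / 266305 : ℝ)).Countable :=
  cnt_R (d := 12) (c := (2381056 / 266305 : ℝ)) c_12_1033842 (by norm_num) (by norm_num)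

theorem c_12_1190528 : (S 12 (1190528 / 266305 : ℝ)).Countable :=
  cnt_L (d := 11) (c := (1190528 / 266305 : ℝ)) c_13_2381056 (by norm_num) (by norm_num)

theorem c_11_595264 : (S 11 (595264 / 266305 : ℝ)).Countable :=
  cnt_L (d := 10) (c := (595264 / 266305 : ℝ)) c_12_1190528 (by norm_num) (by norm_num)

theorem c_10_297632 : (S 10 (297632 / 266305 : ℝ)).Countable :=
  cnt_L (d := 9) (c := (297632 / 266305 : ℝ)) c_11_595264 (by norm_num) (by norm_num)

theorem c_9_148816 : (S 9 (148816 / 266305 : ℝ)).Countable :=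
  cnt_L (d := 8) (c := (148816 / 266305 : ℝ)) c_10_297632 (by norm_num) (by norm_num)

theorem c_8_74408 : (S 8 (74408 / 266305 : ℝ)).Countable :=
  cnt_L (d := 7) (c := (74408 / 266305 : ℝ)) c_9_148816 (by norm_num) (by norm_num)

theorem c_9_1368729 : (S 9 (1368729 / 266305 : ℝ)).Countable :=
  cnt_R (d := 8) (c := (1368729 / 266305 : ℝ)) c_8_74408 (by norm_num) (by norm_num)

theorem c_10_2149042 : (S 10 (2149042 / 266305 : ℝ)).Countable :=
  cnt_R (d := 9) (c := (2149042 / 266305 : ℝ)) c_9_1368729 (by norm_num) (by norm_num)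

theorem c_9_1074521 : (S 9 (1074521 / 266305 : ℝ)).Countable :=
  cnt_L (d := 8) (c := (1074521 / 266305 : ℝ)) c_10_2149042 (by norm_num) (by norm_num)

theorem c_10_2001938 : (S 10 (2001938 / 266305 : ℝ)).Countable :=
  cnt_R (d := 9) (c := (2001938 / 266305 : ℝ)) c_9_1074521 (by norm_num) (by norm_num)

theorem c_9_1000969 : (S 9 (1000969 / 266305 : ℝ)).Countable :=
  cnt_L (d := 8) (c := (1000969 / 266305 : ℝ)) c_10_2001938 (by norm_num) (by norm_num)

theorem c_10_1965162 : (S 10 (1965162 / 266305 : ℝ)).Countable :=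
  cnt_R (d := 9) (c := (1965162 / 266305 : ℝ)) c_9_1000969 (by norm_num) (by norm_num)

theorem c_9_982581 : (S 9 (982581 / 266305 : ℝ)).Countable :=
  cnt_L (d := 8) (c := (982581 / 266305 : ℝ)) c_10_1965162 (by norm_num) (by norm_num)

theorem c_10_1955968 : (S 10 (1955968 / 266305 : ℝ)).Countable :=
  cnt_R (d := 9) (c := (1955968 / 266305 : ℝ)) c_9_982581 (by norm_num) (by norm_num)

theorem c_9_977984 : (S 9 (977984 / 266305 : ℝ)).Countable :=
  cnt_L (d := 8) (c := (977984 / 266305 : ℝ)) c_10_1955968 (by norm_num) (by norm_num)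

theorem c_8_488992 : (S 8 (488992 / 266305 : ℝ)).Countable :=
  cnt_L (d := 7) (c := (488992 / 266305 : ℝ)) c_9_977984 (by norm_num) (by norm_num)

theorem c_7_244496 : (S 7 (244496 / 266305 : ℝ)).Countable :=
  cnt_L (d := 6) (c := (244496 / 266305 : ℝ)) c_8_488992 (by norm_num) (by norm_num)

theorem c_6_122248 : (S 6 (122248 / 266305 : ℝ)).Countable :=
  cnt_L (d := 5) (c := (122248 / 266305 : ℝ)) c_7_244496 (by norm_num) (by norm_num)

theorem c_5_61124 : (S 5 (61124 / 266305 : ℝ)).Countable :=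
  cnt_L (d := 4) (c := (61124 / 266305 : ℝ)) c_6_122248 (by norm_num) (by norm_num)

theorem c_4_30562 : (S 4 (30562 / 266305 : ℝ)).Countable :=
  cnt_L (d := 3) (c := (30562 / 266305 : ℝ)) c_5_61124 (by norm_num) (by norm_num)

theorem c_5_814196 : (S 5 (814196 / 266305 : ℝ)).Countable :=
  cnt_R (d := 4) (c := (814196 / 266305 : ℝ)) c_4_30562 (by norm_num) (by norm_num)

theorem c_4_407098 : (S 4 (407098 / 266305 : ℝ)).Countable :=
  cnt_L (d := 3) (c := (407098 / 266305 : ℝ)) c_5_814196 (by norm_num) (by norm_num)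

theorem c_5_1002464 : (S 5 (1002464 / 266305 : ℝ)).Countable :=
  cnt_R (d := 4) (c := (1002464 / 266305 : ℝ)) c_4_407098 (by norm_num) (by norm_num)

theorem c_4_501232 : (S 4 (501232 / 266305 : ℝ)).Countable :=
  cnt_L (d := 3) (c := (501232 / 266305 : ℝ)) c_5_1002464 (by norm_num) (by norm_num)

theorem c_3_250616 : (S 3 (250616 / 266305 : ℝ)).Countable :=
  cnt_L (d := 2) (c := (250616 / 266305 : ℝ)) c_4_501232 (by norm_num) (by norm_num)

theorem c_2_125308 : (S 2 (125308 / 266305 : ℝ)).Countable :=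
  cnt_L (d := 1) (c := (125308 / 266305 : ℝ)) c_3_250616 (by norm_num) (by norm_num)

theorem c_3_595264 : (S 3 (595264 / 266305 : ℝ)).Countable :=
  cnt_R (d := 2) (c := (595264 / 266305 : ℝ)) c_2_125308 (by norm_num) (by norm_num)

theorem c_2_297632 : (S 2 (297632 / 266305 : ℝ)).Countable :=
  cnt_L (d := 1) (c := (297632 / 266305 : ℝ)) c_3_595264 (by norm_num) (by norm_num)

theorem c_1_148816 : (S 1 (148816 / 266305 : ℝ)).Countable :=
  cnt_L (d := 0) (c := (148816 / 266305 : ℝ)) c_2_297632 (by norm_num) (by norm_num)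

theorem c_0_74408 : (S 0 (74408 / 266305 : ℝ)).Countable :=
  cnt_Z (c := (74408 / 266305 : ℝ)) c_1_148816 (by norm_num)

theorem c_1_303509 : (S 1 (303509 / 266305 : ℝ)).Countable :=
  cnt_R (d := 0) (c := (303509 / 266305 : ℝ)) c_0_74408 (by norm_num) (by norm_num)

theorem c_2_551212 : (S 2 (551212 / 266305 : ℝ)).Countable :=
  cnt_R (d := 1) (c := (551212 / 266305 : ℝ)) c_1_303509 (by norm_num) (by norm_num)

theorem c_3_808216 : (S 3 (808216 / 266305 : ℝ)).Countable :=
  cnt_R (d := 2) (c := (808216 / 266305 : ℝ)) c_2_551212 (by norm_num) (by norm_num)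

theorem c_3_711679 : (S 3 (711679 / 266305 : ℝ)).Countable := by
  have h0 : Sub (S 3 (711679 / 266305 : ℝ)) (S 3 (711679 / 266305 : ℝ)) 1 := Sub.refl _
  have h1 := sub_R (d := 3) (c := (1021602 / 266305 : ℝ)) h0 (by norm_num) (by norm_num)
  have h2 := sub_R (d := 4) (c := (1309716 / 266305 : ℝ)) h1 (by norm_num) (by norm_num)
  have h3 := sub_L (d := 3) (c := (654858 / 266305 : ℝ)) h2 (by norm_num) (by norm_num)
  have h4 := sub_R (d := 4) (c := (1126344 / 266305 : ℝ)) h3 (by norm_num) (by norm_num)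
  have h5 := sub_L (d := 3) (c := (563172 / 266305 : ℝ)) h4 (by norm_num) (by norm_num)
  have h6 := sub_R (d := 4) (c := (1080501 / 266305 : ℝ)) h5 (by norm_num) (by norm_num)
  have h7 := sub_R (d := 5) (c := (1472318 / 266305 : ℝ)) h6 (by norm_num) (by norm_num)
  have h8 := sub_R (d := 6) (c := (1801379 / 266305 : ℝ)) h7 (by norm_num) (by norm_num)
  have h9 := sub_R (d := 7) (c := (2099062 / 266305 : ℝ)) h8 (by norm_num) (by norm_num)
  have h10 := sub_R (d := 8) (c := (2381056 / 266305 : ℝ)) h9 (by norm_num) (by norm_num)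
  have h11 := sub_L (d := 7) (c := (1190528 / 266305 : ℝ)) h10 (by norm_num) (by norm_num)
  have h12 := sub_L (d := 6) (c := (595264 / 266305 : ℝ)) h11 (by norm_num) (by norm_num)
  have h13 := sub_L (d := 5) (c := (297632 / 266305 : ℝ)) h12 (by norm_num) (by norm_num)
  have h14 := sub_L (d := 4) (c := (148816 / 266305 : ℝ)) h13 (by norm_num) (by norm_num)
  have h15 := sub_L (d := 3) (c := (74408 / 266305 : ℝ)) h14 (by norm_num) (by norm_num)
  have h16 := sub_L (d := 2) (c := (37204 / 266305 : ℝ)) h15 (by norm_num) (by norm_num)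
  have h17 := sub_L (d := 1) (c := (18602 / 266305 : ℝ)) h16 (by norm_num) (by norm_num)
  have h18 := sub_L (d := 0) (c := (9301 / 266305 : ℝ)) h17 (by norm_num) (by norm_num)
  have h19 := sub_X (d := 1) (c := (404108 / 266305 : ℝ)) h18 (by norm_num) c_3_808216 (by norm_num)
  have h20 := sub_R (d := 2) (c := (734664 / 266305 : ℝ)) h19 (by norm_num) (by norm_num)
  have h21 := sub_L (d := 1) (c := (367332 / 266305 : ℝ)) h20 (by norm_num) (by norm_num)
  have h22 := sub_R (d := 2) (c := (716276 / 266305 : ℝ)) h21 (by norm_num) (by norm_num)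
  have h23 := sub_L (d := 1) (c := (358138 / 266305 : ℝ)) h22 (by norm_num) (by norm_num)
  have h24 := sub_R (d := 2) (c := (711679 / 266305 : ℝ)) h23 (by norm_num) (by norm_num)
  exact countable_of_sub (S_subset _ _) (by norm_num) (by norm_num) h24

theorem c_4_1021602 : (S 4 (1021602 / 266305 : ℝ)).Countable :=
  cnt_R (d := 3) (c := (1021602 / 266305 : ℝ)) c_3_711679 (by norm_num) (by norm_num)

theorem c_5_1309716 : (S 5 (1309716 / 266305 : ℝ)).Countable :=
  cnt_R (d := 4) (c := (1309716 / 266305 : ℝ)) c_4_1021602 (by norm_num) (by norm_num)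

theorem c_4_654858 : (S 4 (654858 / 266305 : ℝ)).Countable :=
  cnt_L (d := 3) (c := (654858 / 266305 : ℝ)) c_5_1309716 (by norm_num) (by norm_num)

theorem c_5_1126344 : (S 5 (1126344 / 266305 : ℝ)).Countable :=
  cnt_R (d := 4) (c := (1126344 / 266305 : ℝ)) c_4_654858 (by norm_num) (by norm_num)

theorem c_4_563172 : (S 4 (563172 / 266305 : ℝ)).Countable :=
  cnt_L (d := 3) (c := (563172 / 266305 : ℝ)) c_5_1126344 (by norm_num) (by norm_num)

theorem c_5_1080501 : (S 5 (1080501 / 266305 : ℝ)).Countable :=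
  cnt_R (d := 4) (c := (1080501 / 266305 : ℝ)) c_4_563172 (by norm_num) (by norm_num)

theorem c_6_1472318 : (S 6 (1472318 / 266305 : ℝ)).Countable :=
  cnt_R (d := 5) (c := (1472318 / 266305 : ℝ)) c_5_1080501 (by norm_num) (by norm_num)

theorem c_7_1801379 : (S 7 (1801379 / 266305 : ℝ)).Countable :=
  cnt_R (d := 6) (c := (1801379 / 266305 : ℝ)) c_6_1472318 (by norm_num) (by norm_num)

theorem c_8_2099062 : (S 8 (2099062 / 266305 : ℝ)).Countable :=
  cnt_R (d := 7) (c := (2099062 / 266305 : ℝ)) c_7_1801379 (by norm_num) (by norm_num)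

theorem c_9_2381056 : (S 9 (2381056 / 266305 : ℝ)).Countable :=
  cnt_R (d := 8) (c := (2381056 / 266305 : ℝ)) c_8_2099062 (by norm_num) (by norm_num)

theorem c_8_1190528 : (S 8 (1190528 / 266305 : ℝ)).Countable :=
  cnt_L (d := 7) (c := (1190528 / 266305 : ℝ)) c_9_2381056 (by norm_num) (by norm_num)

theorem c_7_595264 : (S 7 (595264 / 266305 : ℝ)).Countable :=
  cnt_L (d := 6) (c := (595264 / 266305 : ℝ)) c_8_1190528 (by norm_num) (by norm_num)

theorem c_6_297632 : (S 6 (297632 / 266305 : ℝ)).Countable :=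
  cnt_L (d := 5) (c := (297632 / 266305 : ℝ)) c_7_595264 (by norm_num) (by norm_num)

theorem c_5_148816 : (S 5 (148816 / 266305 : ℝ)).Countable :=
  cnt_L (d := 4) (c := (148816 / 266305 : ℝ)) c_6_297632 (by norm_num) (by norm_num)

theorem c_4_74408 : (S 4 (74408 / 266305 : ℝ)).Countable :=
  cnt_L (d := 3) (c := (74408 / 266305 : ℝ)) c_5_148816 (by norm_num) (by norm_num)

theorem c_3_37204 : (S 3 (37204 / 266305 : ℝ)).Countable :=
  cnt_L (d := 2) (c := (37204 / 266305 : ℝ)) c_4_74408 (by norm_num) (by norm_num)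

theorem c_2_18602 : (S 2 (18602 / 266305 : ℝ)).Countable :=
  cnt_L (d := 1) (c := (18602 / 266305 : ℝ)) c_3_37204 (by norm_num) (by norm_num)

theorem c_1_9301 : (S 1 (9301 / 266305 : ℝ)).Countable :=
  cnt_L (d := 0) (c := (9301 / 266305 : ℝ)) c_2_18602 (by norm_num) (by norm_num)

theorem c_2_404108 : (S 2 (404108 / 266305 : ℝ)).Countable :=
  cnt_B (d := 1) (c := (404108 / 266305 : ℝ)) c_3_808216 (by norm_num) c_1_9301 (by norm_num)

theorem c_3_734664 : (S 3 (734664 / 266305 : ℝ)).Countable :=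
  cnt_R (d := 2) (c := (734664 / 266305 : ℝ)) c_2_404108 (by norm_num) (by norm_num)

theorem c_2_367332 : (S 2 (367332 / 266305 : ℝ)).Countable :=
  cnt_L (d := 1) (c := (367332 / 266305 : ℝ)) c_3_734664 (by norm_num) (by norm_num)

theorem c_3_716276 : (S 3 (716276 / 266305 : ℝ)).Countable :=
  cnt_R (d := 2) (c := (716276 / 266305 : ℝ)) c_2_367332 (by norm_num) (by norm_num)

theorem c_2_358138 : (S 2 (358138 / 266305 : ℝ)).Countable :=
  cnt_L (d := 1) (c := (358138 / 266305 : ℝ)) c_3_716276 (by norm_num) (by norm_num)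

theorem c_1_179069 : (S 1 (179069 / 266305 : ℝ)).Countable :=
  cnt_L (d := 0) (c := (179069 / 266305 : ℝ)) c_2_358138 (by norm_num) (by norm_num)

theorem c_2_488992 : (S 2 (488992 / 266305 : ℝ)).Countable :=
  cnt_R (d := 1) (c := (488992 / 266305 : ℝ)) c_1_179069 (by norm_num) (by norm_num)

theorem c_1_244496 : (S 1 (244496 / 266305 : ℝ)).Countable :=
  cnt_L (d := 0) (c := (244496 / 266305 : ℝ)) c_2_488992 (by norm_num) (by norm_num)

theorem c_0_122248 : (S 0 (122248 / 266305 : ℝ)).Countable :=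
  cnt_Z (c := (122248 / 266305 : ℝ)) c_1_244496 (by norm_num)

theorem c_1_327429 : (S 1 (327429 / 266305 : ℝ)).Countable :=
  cnt_R (d := 0) (c := (327429 / 266305 : ℝ)) c_0_122248 (by norm_num) (by norm_num)

theorem c_2_563172 : (S 2 (563172 / 266305 : ℝ)).Countable :=
  cnt_R (d := 1) (c := (563172 / 266305 : ℝ)) c_1_327429 (by norm_num) (by norm_num)

theorem c_3_814196 : (S 3 (814196 / 266305 : ℝ)).Countable :=
  cnt_R (d := 2) (c := (814196 / 266305 : ℝ)) c_2_563172 (by norm_num) (by norm_num)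

theorem c_7_1799884 : (S 7 (1799884 / 266305 : ℝ)).Countable := by
  have h0 : Sub (S 7 (1799884 / 266305 : ℝ)) (S 7 (1799884 / 266305 : ℝ)) 1 := Sub.refl _
  have h1 := sub_L (d := 5) (c := (899942 / 266305 : ℝ)) h0 (by norm_num) (by norm_num)
  have h2 := sub_R (d := 6) (c := (1515191 / 266305 : ℝ)) h1 (by norm_num) (by norm_num)
  have h3 := sub_R (d := 7) (c := (1955968 / 266305 : ℝ)) h2 (by norm_num) (by norm_num)
  have h4 := sub_L (d := 6) (c := (977984 / 266305 : ℝ)) h3 (by norm_num) (by norm_num)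
  have h5 := sub_L (d := 5) (c := (488992 / 266305 : ℝ)) h4 (by norm_num) (by norm_num)
  have h6 := sub_L (d := 4) (c := (244496 / 266305 : ℝ)) h5 (by norm_num) (by norm_num)
  have h7 := sub_L (d := 3) (c := (122248 / 266305 : ℝ)) h6 (by norm_num) (by norm_num)
  have h8 := sub_L (d := 2) (c := (61124 / 266305 : ℝ)) h7 (by norm_num) (by norm_num)
  have h9 := sub_L (d := 1) (c := (30562 / 266305 : ℝ)) h8 (by norm_num) (by norm_num)
  have h10 := sub_L (d := 0) (c := (15281 / 266305 : ℝ)) h9 (by norm_num) (by norm_num)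
  have h11 := sub_X (d := 1) (c := (407098 / 266305 : ℝ)) h10 (by norm_num) c_3_814196 (by norm_num)
  have h12 := sub_R (d := 2) (c := (736159 / 266305 : ℝ)) h11 (by norm_num) (by norm_num)
  have h13 := sub_R (d := 3) (c := (1033842 / 266305 : ℝ)) h12 (by norm_num) (by norm_num)
  have h14 := sub_R (d := 4) (c := (1315836 / 266305 : ℝ)) h13 (by norm_num) (by norm_num)
  have h15 := sub_L (d := 3) (c := (657918 / 266305 : ℝ)) h14 (by norm_num) (by norm_num)
  have h16 := sub_L (d := 2) (c := (328959 / 266305 : ℝ)) h15 (by norm_num) (by norm_num)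
  have h17 := sub_R (d := 3) (c := (830242 / 266305 : ℝ)) h16 (by norm_num) (by norm_num)
  have h18 := sub_R (d := 4) (c := (1214036 / 266305 : ℝ)) h17 (by norm_num) (by norm_num)
  have h19 := sub_L (d := 3) (c := (607018 / 266305 : ℝ)) h18 (by norm_num) (by norm_num)
  have h20 := sub_R (d := 4) (c := (1102424 / 266305 : ℝ)) h19 (by norm_num) (by norm_num)
  have h21 := sub_L (d := 3) (c := (551212 / 266305 : ℝ)) h20 (by norm_num) (by norm_num)
  have h22 := sub_R (d := 4) (c := (1074521 / 266305 : ℝ)) h21 (by norm_num) (by norm_num)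
  have h23 := sub_R (d := 5) (c := (1469328 / 266305 : ℝ)) h22 (by norm_num) (by norm_num)
  have h24 := sub_R (d := 6) (c := (1799884 / 266305 : ℝ)) h23 (by norm_num) (by norm_num)
  exact countable_of_sub (S_subset _ _) (by norm_num) (by norm_num) h24

theorem c_6_899942 : (S 6 (899942 / 266305 : ℝ)).Countable :=
  cnt_L (d := 5) (c := (899942 / 266305 : ℝ)) c_7_1799884 (by norm_num) (by norm_num)

theorem c_7_1515191 : (S 7 (1515191 / 266305 : ℝ)).Countable :=
  cnt_R (d := 6) (c := (1515191 / 266305 : ℝ)) c_6_899942 (by norm_num) (by norm_num)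

theorem c_8_1955968 : (S 8 (1955968 / 266305 : ℝ)).Countable :=
  cnt_R (d := 7) (c := (1955968 / 266305 : ℝ)) c_7_1515191 (by norm_num) (by norm_num)

theorem c_7_977984 : (S 7 (977984 / 266305 : ℝ)).Countable :=
  cnt_L (d := 6) (c := (977984 / 266305 : ℝ)) c_8_1955968 (by norm_num) (by norm_num)

theorem c_6_488992 : (S 6 (488992 / 266305 : ℝ)).Countable :=
  cnt_L (d := 5) (c := (488992 / 266305 : ℝ)) c_7_977984 (by norm_num) (by norm_num)

theorem c_5_244496 : (S 5 (244496 / 266305 : ℝ)).Countable :=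
  cnt_L (d := 4) (c := (244496 / 266305 : ℝ)) c_6_488992 (by norm_num) (by norm_num)

theorem c_4_122248 : (S 4 (122248 / 266305 : ℝ)).Countable :=
  cnt_L (d := 3) (c := (122248 / 266305 : ℝ)) c_5_244496 (by norm_num) (by norm_num)

theorem c_3_61124 : (S 3 (61124 / 266305 : ℝ)).Countable :=
  cnt_L (d := 2) (c := (61124 / 266305 : ℝ)) c_4_122248 (by norm_num) (by norm_num)

theorem c_2_30562 : (S 2 (30562 / 266305 : ℝ)).Countable :=
  cnt_L (d := 1) (c := (30562 / 266305 : ℝ)) c_3_61124 (by norm_num) (by norm_num)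

theorem c_1_15281 : (S 1 (15281 / 266305 : ℝ)).Countable :=
  cnt_L (d := 0) (c := (15281 / 266305 : ℝ)) c_2_30562 (by norm_num) (by norm_num)

theorem c_2_407098 : (S 2 (407098 / 266305 : ℝ)).Countable :=
  cnt_B (d := 1) (c := (407098 / 266305 : ℝ)) c_3_814196 (by norm_num) c_1_15281 (by norm_num)

theorem c_3_736159 : (S 3 (736159 / 266305 : ℝ)).Countable :=
  cnt_R (d := 2) (c := (736159 / 266305 : ℝ)) c_2_407098 (by norm_num) (by norm_num)

theorem c_4_1033842 : (S 4 (1033842 / 266305 : ℝ)).Countable :=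
  cnt_R (d := 3) (c := (1033842 / 266305 : ℝ)) c_3_736159 (by norm_num) (by norm_num)

theorem c_5_1315836 : (S 5 (1315836 / 266305 : ℝ)).Countable :=
  cnt_R (d := 4) (c := (1315836 / 266305 : ℝ)) c_4_1033842 (by norm_num) (by norm_num)

theorem c_4_657918 : (S 4 (657918 / 266305 : ℝ)).Countable :=
  cnt_L (d := 3) (c := (657918 / 266305 : ℝ)) c_5_1315836 (by norm_num) (by norm_num)

theorem c_3_328959 : (S 3 (328959 / 266305 : ℝ)).Countable :=
  cnt_L (d := 2) (c := (328959 / 266305 : ℝ)) c_4_657918 (by norm_num) (by norm_num)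

theorem c_4_830242 : (S 4 (830242 / 266305 : ℝ)).Countable :=
  cnt_R (d := 3) (c := (830242 / 266305 : ℝ)) c_3_328959 (by norm_num) (by norm_num)

theorem c_5_1214036 : (S 5 (1214036 / 266305 : ℝ)).Countable :=
  cnt_R (d := 4) (c := (1214036 / 266305 : ℝ)) c_4_830242 (by norm_num) (by norm_num)

theorem c_4_607018 : (S 4 (607018 / 266305 : ℝ)).Countable :=
  cnt_L (d := 3) (c := (607018 / 266305 : ℝ)) c_5_1214036 (by norm_num) (by norm_num)

theorem c_5_1102424 : (S 5 (1102424 / 266305 : ℝ)).Countable :=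
  cnt_R (d := 4) (c := (1102424 / 266305 : ℝ)) c_4_607018 (by norm_num) (by norm_num)

theorem c_4_551212 : (S 4 (551212 / 266305 : ℝ)).Countable :=
  cnt_L (d := 3) (c := (551212 / 266305 : ℝ)) c_5_1102424 (by norm_num) (by norm_num)

theorem c_5_1074521 : (S 5 (1074521 / 266305 : ℝ)).Countable :=
  cnt_R (d := 4) (c := (1074521 / 266305 : ℝ)) c_4_551212 (by norm_num) (by norm_num)

theorem c_6_1469328 : (S 6 (1469328 / 266305 : ℝ)).Countable :=
  cnt_R (d := 5) (c := (1469328 / 266305 : ℝ)) c_5_1074521 (by norm_num) (by norm_num)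

theorem c_5_734664 : (S 5 (734664 / 266305 : ℝ)).Countable :=
  cnt_L (d := 4) (c := (734664 / 266305 : ℝ)) c_6_1469328 (by norm_num) (by norm_num)

theorem c_4_367332 : (S 4 (367332 / 266305 : ℝ)).Countable :=
  cnt_L (d := 3) (c := (367332 / 266305 : ℝ)) c_5_734664 (by norm_num) (by norm_num)

theorem c_5_982581 : (S 5 (982581 / 266305 : ℝ)).Countable :=
  cnt_R (d := 4) (c := (982581 / 266305 : ℝ)) c_4_367332 (by norm_num) (by norm_num)

theorem c_6_1423358 : (S 6 (1423358 / 266305 : ℝ)).Countable :=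
  cnt_R (d := 5) (c := (1423358 / 266305 : ℝ)) c_5_982581 (by norm_num) (by norm_num)

theorem c_7_1776899 : (S 7 (1776899 / 266305 : ℝ)).Countable :=
  cnt_R (d := 6) (c := (1776899 / 266305 : ℝ)) c_6_1423358 (by norm_num) (by norm_num)

theorem c_8_2086822 : (S 8 (2086822 / 266305 : ℝ)).Countable :=
  cnt_R (d := 7) (c := (2086822 / 266305 : ℝ)) c_7_1776899 (by norm_num) (by norm_num)

theorem c_7_1043411 : (S 7 (1043411 / 266305 : ℝ)).Countable :=
  cnt_L (d := 6) (c := (1043411 / 266305 : ℝ)) c_8_2086822 (by norm_num) (by norm_num)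

theorem c_8_1720078 : (S 8 (1720078 / 266305 : ℝ)).Countable :=
  cnt_R (d := 7) (c := (1720078 / 266305 : ℝ)) c_7_1043411 (by norm_num) (by norm_num)

theorem c_7_860039 : (S 7 (860039 / 266305 : ℝ)).Countable :=
  cnt_L (d := 6) (c := (860039 / 266305 : ℝ)) c_8_1720078 (by norm_num) (by norm_num)

theorem c_8_1628392 : (S 8 (1628392 / 266305 : ℝ)).Countable :=
  cnt_R (d := 7) (c := (1628392 / 266305 : ℝ)) c_7_860039 (by norm_num) (by norm_num)

theorem c_7_814196 : (S 7 (814196 / 266305 : ℝ)).Countable :=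
  cnt_L (d := 6) (c := (814196 / 266305 : ℝ)) c_8_1628392 (by norm_num) (by norm_num)

theorem c_6_407098 : (S 6 (407098 / 266305 : ℝ)).Countable :=
  cnt_L (d := 5) (c := (407098 / 266305 : ℝ)) c_7_814196 (by norm_num) (by norm_num)

theorem c_5_203549 : (S 5 (203549 / 266305 : ℝ)).Countable :=
  cnt_L (d := 4) (c := (203549 / 266305 : ℝ)) c_6_407098 (by norm_num) (by norm_num)

theorem c_6_1033842 : (S 6 (1033842 / 266305 : ℝ)).Countable :=
  cnt_R (d := 5) (c := (1033842 / 266305 : ℝ)) c_5_203549 (by norm_num) (by norm_num)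

theorem c_5_516921 : (S 5 (516921 / 266305 : ℝ)).Countable :=
  cnt_L (d := 4) (c := (516921 / 266305 : ℝ)) c_6_1033842 (by norm_num) (by norm_num)

theorem c_6_1190528 : (S 6 (1190528 / 266305 : ℝ)).Countable :=
  cnt_R (d := 5) (c := (1190528 / 266305 : ℝ)) c_5_516921 (by norm_num) (by norm_num)

theorem c_5_595264 : (S 5 (595264 / 266305 : ℝ)).Countable :=
  cnt_L (d := 4) (c := (595264 / 266305 : ℝ)) c_6_1190528 (by norm_num) (by norm_num)

theorem c_4_297632 : (S 4 (297632 / 266305 : ℝ)).Countable :=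
  cnt_L (d := 3) (c := (297632 / 266305 : ℝ)) c_5_595264 (by norm_num) (by norm_num)

theorem c_3_148816 : (S 3 (148816 / 266305 : ℝ)).Countable :=
  cnt_L (d := 2) (c := (148816 / 266305 : ℝ)) c_4_297632 (by norm_num) (by norm_num)

theorem c_2_74408 : (S 2 (74408 / 266305 : ℝ)).Countable :=
  cnt_L (d := 1) (c := (74408 / 266305 : ℝ)) c_3_148816 (by norm_num) (by norm_num)

theorem c_1_37204 : (S 1 (37204 / 266305 : ℝ)).Countable :=
  cnt_L (d := 0) (c := (37204 / 266305 : ℝ)) c_2_74408 (by norm_num) (by norm_num)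

theorem c_0_18602 : (S 0 (18602 / 266305 : ℝ)).Countable :=
  cnt_Z (c := (18602 / 266305 : ℝ)) c_1_37204 (by norm_num)

theorem c_1_62654 : (S 1 (62654 / 266305 : ℝ)).Countable :=
  cnt_L (d := 0) (c := (62654 / 266305 : ℝ)) c_2_125308 (by norm_num) (by norm_num)

theorem c_0_31327 : (S 0 (31327 / 266305 : ℝ)).Countable :=
  cnt_Z (c := (31327 / 266305 : ℝ)) c_1_62654 (by norm_num)

theorem c_1_203549 : (S 1 (203549 / 266305 : ℝ)).Countable :=
  cnt_L (d := 0) (c := (203549 / 266305 : ℝ)) c_2_407098 (by norm_num) (by norm_num)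

theorem c_2_501232 : (S 2 (501232 / 266305 : ℝ)).Countable :=
  cnt_R (d := 1) (c := (501232 / 266305 : ℝ)) c_1_203549 (by norm_num) (by norm_num)

theorem c_1_250616 : (S 1 (250616 / 266305 : ℝ)).Countable :=
  cnt_L (d := 0) (c := (250616 / 266305 : ℝ)) c_2_501232 (by norm_num) (by norm_num)

theorem c_0_125308 : (S 0 (125308 / 266305 : ℝ)).Countable :=
  cnt_Z (c := (125308 / 266305 : ℝ)) c_1_250616 (by norm_num)

theorem c_51_7251359 : (S 51 (7251359 / 266305 : ℝ)).Countable := by
  have h0 : Sub (S 51 (7251359 / 266305 : ℝ)) (S 51 (7251359 / 266305 : ℝ)) 1 := Sub.refl _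
  have h1 := sub_R (d := 51) (c := (10682762 / 266305 : ℝ)) h0 (by norm_num) (by norm_num)
  have h2 := sub_R (d := 52) (c := (12531616 / 266305 : ℝ)) h1 (by norm_num) (by norm_num)
  have h3 := sub_L (d := 51) (c := (6265808 / 266305 : ℝ)) h2 (by norm_num) (by norm_num)
  have h4 := sub_L (d := 50) (c := (3132904 / 266305 : ℝ)) h3 (by norm_num) (by norm_num)
  have h5 := sub_L (d := 49) (c := (1566452 / 266305 : ℝ)) h4 (by norm_num) (by norm_num)
  have h6 := sub_R (d := 50) (c := (7707156 / 266305 : ℝ)) h5 (by norm_num) (by norm_num)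
  have h7 := sub_L (d := 49) (c := (3853578 / 266305 : ℝ)) h6 (by norm_num) (by norm_num)
  have h8 := sub_L (d := 48) (c := (1926789 / 266305 : ℝ)) h7 (by norm_num) (by norm_num)
  have h9 := sub_R (d := 49) (c := (7754172 / 266305 : ℝ)) h8 (by norm_num) (by norm_num)
  have h10 := sub_R (d := 50) (c := (10801016 / 266305 : ℝ)) h9 (by norm_num) (by norm_num)
  have h11 := sub_L (d := 49) (c := (5400508 / 266305 : ℝ)) h10 (by norm_num) (by norm_num)
  have h12 := sub_R (d := 50) (c := (9624184 / 266305 : ℝ)) h11 (by norm_num) (by norm_num)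
  have h13 := sub_L (d := 49) (c := (4812092 / 266305 : ℝ)) h12 (by norm_num) (by norm_num)
  have h14 := sub_R (d := 50) (c := (9329976 / 266305 : ℝ)) h13 (by norm_num) (by norm_num)
  have h15 := sub_L (d := 49) (c := (4664988 / 266305 : ℝ)) h14 (by norm_num) (by norm_num)
  have h16 := sub_R (d := 50) (c := (9256424 / 266305 : ℝ)) h15 (by norm_num) (by norm_num)
  have h17 := sub_L (d := 49) (c := (4628212 / 266305 : ℝ)) h16 (by norm_num) (by norm_num)
  have h18 := sub_R (d := 50) (c := (9238036 / 266305 : ℝ)) h17 (by norm_num) (by norm_num)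
  have h19 := sub_L (d := 49) (c := (4619018 / 266305 : ℝ)) h18 (by norm_num) (by norm_num)
  have h20 := sub_L (d := 48) (c := (2309509 / 266305 : ℝ)) h19 (by norm_num) (by norm_num)
  have h21 := sub_R (d := 49) (c := (7945532 / 266305 : ℝ)) h20 (by norm_num) (by norm_num)
  have h22 := sub_R (d := 50) (c := (10896696 / 266305 : ℝ)) h21 (by norm_num) (by norm_num)
  have h23 := sub_L (d := 49) (c := (5448348 / 266305 : ℝ)) h22 (by norm_num) (by norm_num)
  have h24 := sub_R (d := 50) (c := (9648104 / 266305 : ℝ)) h23 (by norm_num) (by norm_num)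
  have h25 := sub_L (d := 49) (c := (4824052 / 266305 : ℝ)) h24 (by norm_num) (by norm_num)
  have h26 := sub_R (d := 50) (c := (9335956 / 266305 : ℝ)) h25 (by norm_num) (by norm_num)
  have h27 := sub_L (d := 49) (c := (4667978 / 266305 : ℝ)) h26 (by norm_num) (by norm_num)
  have h28 := sub_R (d := 50) (c := (9257919 / 266305 : ℝ)) h27 (by norm_num) (by norm_num)
  have h29 := sub_R (d := 51) (c := (11686042 / 266305 : ℝ)) h28 (by norm_num) (by norm_num)
  have h30 := sub_R (d := 52) (c := (13033256 / 266305 : ℝ)) h29 (by norm_num) (by norm_num)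
  have h31 := sub_L (d := 51) (c := (6516628 / 266305 : ℝ)) h30 (by norm_num) (by norm_num)
  have h32 := sub_R (d := 52) (c := (10448549 / 266305 : ℝ)) h31 (by norm_num) (by norm_num)
  have h33 := sub_R (d := 53) (c := (12547662 / 266305 : ℝ)) h32 (by norm_num) (by norm_num)
  have h34 := sub_R (d := 54) (c := (13730371 / 266305 : ℝ)) h33 (by norm_num) (by norm_num)
  have h35 := sub_R (d := 55) (c := (14454878 / 266305 : ℝ)) h34 (by norm_num) (by norm_num)
  have h36 := sub_R (d := 56) (c := (14950284 / 266305 : ℝ)) h35 (by norm_num) (by norm_num)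
  have h37 := sub_L (d := 55) (c := (7475142 / 266305 : ℝ)) h36 (by norm_num) (by norm_num)
  have h38 := sub_R (d := 56) (c := (11460416 / 266305 : ℝ)) h37 (by norm_num) (by norm_num)
  have h39 := sub_L (d := 55) (c := (5730208 / 266305 : ℝ)) h38 (by norm_num) (by norm_num)
  have h40 := sub_L (d := 54) (c := (2865104 / 266305 : ℝ)) h39 (by norm_num) (by norm_num)
  have h41 := sub_L (d := 53) (c := (1432552 / 266305 : ℝ)) h40 (by norm_num) (by norm_num)
  have h42 := sub_R (d := 54) (c := (8172816 / 266305 : ℝ)) h41 (by norm_num) (by norm_num)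
  have h43 := sub_L (d := 53) (c := (4086408 / 266305 : ℝ)) h42 (by norm_num) (by norm_num)
  have h44 := sub_L (d := 52) (c := (2043204 / 266305 : ℝ)) h43 (by norm_num) (by norm_num)
  have h45 := sub_L (d := 51) (c := (1021602 / 266305 : ℝ)) h44 (by norm_num) (by norm_num)
  have h46 := sub_R (d := 52) (c := (7701036 / 266305 : ℝ)) h45 (by norm_num) (by norm_num)
  have h47 := sub_L (d := 51) (c := (3850518 / 266305 : ℝ)) h46 (by norm_num) (by norm_num)
  have h48 := sub_L (d := 50) (c := (1925259 / 266305 : ℝ)) h47 (by norm_num) (by norm_num)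
  have h49 := sub_R (d := 51) (c := (8019712 / 266305 : ℝ)) h48 (by norm_num) (by norm_num)
  have h50 := sub_L (d := 50) (c := (4009856 / 266305 : ℝ)) h49 (by norm_num) (by norm_num)
  have h51 := sub_L (d := 49) (c := (2004928 / 266305 : ℝ)) h50 (by norm_num) (by norm_num)
  have h52 := sub_L (d := 48) (c := (1002464 / 266305 : ℝ)) h51 (by norm_num) (by norm_num)
  have h53 := sub_L (d := 47) (c := (501232 / 266305 : ℝ)) h52 (by norm_num) (by norm_num)
  have h54 := sub_R (d := 48) (c := (6908241 / 266305 : ℝ)) h53 (by norm_num) (by norm_num)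
  have h55 := sub_R (d := 49) (c := (10244898 / 266305 : ℝ)) h54 (by norm_num) (by norm_num)
  have h56 := sub_L (d := 48) (c := (5122449 / 266305 : ℝ)) h55 (by norm_num) (by norm_num)
  have h57 := sub_R (d := 49) (c := (9352002 / 266305 : ℝ)) h56 (by norm_num) (by norm_num)
  have h58 := sub_L (d := 48) (c := (4676001 / 266305 : ℝ)) h57 (by norm_num) (by norm_num)
  have h59 := sub_R (d := 49) (c := (9128778 / 266305 : ℝ)) h58 (by norm_num) (by norm_num)
  have h60 := sub_R (d := 50) (c := (11488319 / 266305 : ℝ)) h59 (by norm_num) (by norm_num)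
  have h61 := sub_R (d := 51) (c := (12801242 / 266305 : ℝ)) h60 (by norm_num) (by norm_num)
  have h62 := sub_R (d := 52) (c := (13590856 / 266305 : ℝ)) h61 (by norm_num) (by norm_num)
  have h63 := sub_L (d := 51) (c := (6795428 / 266305 : ℝ)) h62 (by norm_num) (by norm_num)
  have h64 := sub_R (d := 52) (c := (10587949 / 266305 : ℝ)) h63 (by norm_num) (by norm_num)
  have h65 := sub_R (d := 53) (c := (12617362 / 266305 : ℝ)) h64 (by norm_num) (by norm_num)
  have h66 := sub_L (d := 52) (c := (6308681 / 266305 : ℝ)) h65 (by norm_num) (by norm_num)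
  have h67 := sub_R (d := 53) (c := (10477728 / 266305 : ℝ)) h66 (by norm_num) (by norm_num)
  have h68 := sub_L (d := 52) (c := (5238864 / 266305 : ℝ)) h67 (by norm_num) (by norm_num)
  have h69 := sub_L (d := 51) (c := (2619432 / 266305 : ℝ)) h68 (by norm_num) (by norm_num)
  have h70 := sub_L (d := 50) (c := (1309716 / 266305 : ℝ)) h69 (by norm_num) (by norm_num)
  have h71 := sub_L (d := 49) (c := (654858 / 266305 : ℝ)) h70 (by norm_num) (by norm_num)
  have h72 := sub_R (d := 50) (c := (7251359 / 266305 : ℝ)) h71 (by norm_num) (by norm_num)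
  exact countable_of_sub (S_subset _ _) (by norm_num) (by norm_num) h72

theorem c_52_10682762 : (S 52 (10682762 / 266305 : ℝ)).Countable :=
  cnt_R (d := 51) (c := (10682762 / 266305 : ℝ)) c_51_7251359 (by norm_num) (by norm_num)

theorem c_53_12531616 : (S 53 (12531616 / 266305 : ℝ)).Countable :=
  cnt_R (d := 52) (c := (12531616 / 266305 : ℝ)) c_52_10682762 (by norm_num) (by norm_num)

theorem c_52_6265808 : (S 52 (6265808 / 266305 : ℝ)).Countable :=
  cnt_L (d := 51) (c := (6265808 / 266305 : ℝ)) c_53_12531616 (by norm_num) (by norm_num)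

theorem c_51_3132904 : (S 51 (3132904 / 266305 : ℝ)).Countable :=
  cnt_L (d := 50) (c := (3132904 / 266305 : ℝ)) c_52_6265808 (by norm_num) (by norm_num)

theorem c_50_1566452 : (S 50 (1566452 / 266305 : ℝ)).Countable :=
  cnt_L (d := 49) (c := (1566452 / 266305 : ℝ)) c_51_3132904 (by norm_num) (by norm_num)

theorem c_51_7707156 : (S 51 (7707156 / 266305 : ℝ)).Countable :=
  cnt_R (d := 50) (c := (7707156 / 266305 : ℝ)) c_50_1566452 (by norm_num) (by norm_num)

theorem c_50_3853578 : (S 50 (3853578 / 266305 : ℝ)).Countable :=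
  cnt_L (d := 49) (c := (3853578 / 266305 : ℝ)) c_51_7707156 (by norm_num) (by norm_num)

theorem c_49_1926789 : (S 49 (1926789 / 266305 : ℝ)).Countable :=
  cnt_L (d := 48) (c := (1926789 / 266305 : ℝ)) c_50_3853578 (by norm_num) (by norm_num)

theorem c_50_7754172 : (S 50 (7754172 / 266305 : ℝ)).Countable :=
  cnt_R (d := 49) (c := (7754172 / 266305 : ℝ)) c_49_1926789 (by norm_num) (by norm_num)

theorem c_51_10801016 : (S 51 (10801016 / 266305 : ℝ)).Countable :=
  cnt_R (d := 50) (c := (10801016 / 266305 : ℝ)) c_50_7754172 (by norm_num) (by norm_num)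

theorem c_50_5400508 : (S 50 (5400508 / 266305 : ℝ)).Countable :=
  cnt_L (d := 49) (c := (5400508 / 266305 : ℝ)) c_51_10801016 (by norm_num) (by norm_num)

theorem c_51_9624184 : (S 51 (9624184 / 266305 : ℝ)).Countable :=
  cnt_R (d := 50) (c := (9624184 / 266305 : ℝ)) c_50_5400508 (by norm_num) (by norm_num)

theorem c_50_4812092 : (S 50 (4812092 / 266305 : ℝ)).Countable :=
  cnt_L (d := 49) (c := (4812092 / 266305 : ℝ)) c_51_9624184 (by norm_num) (by norm_num)

theorem c_51_9329976 : (S 51 (9329976 / 266305 : ℝ)).Countable :=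
  cnt_R (d := 50) (c := (9329976 / 266305 : ℝ)) c_50_4812092 (by norm_num) (by norm_num)

theorem c_50_4664988 : (S 50 (4664988 / 266305 : ℝ)).Countable :=
  cnt_L (d := 49) (c := (4664988 / 266305 : ℝ)) c_51_9329976 (by norm_num) (by norm_num)

theorem c_51_9256424 : (S 51 (9256424 / 266305 : ℝ)).Countable :=
  cnt_R (d := 50) (c := (9256424 / 266305 : ℝ)) c_50_4664988 (by norm_num) (by norm_num)

theorem c_50_4628212 : (S 50 (4628212 / 266305 : ℝ)).Countable :=
  cnt_L (d := 49) (c := (4628212 / 266305 : ℝ)) c_51_9256424 (by norm_num) (by norm_num)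

theorem c_51_9238036 : (S 51 (9238036 / 266305 : ℝ)).Countable :=
  cnt_R (d := 50) (c := (9238036 / 266305 : ℝ)) c_50_4628212 (by norm_num) (by norm_num)

theorem c_50_4619018 : (S 50 (4619018 / 266305 : ℝ)).Countable :=
  cnt_L (d := 49) (c := (4619018 / 266305 : ℝ)) c_51_9238036 (by norm_num) (by norm_num)

theorem c_49_2309509 : (S 49 (2309509 / 266305 : ℝ)).Countable :=
  cnt_L (d := 48) (c := (2309509 / 266305 : ℝ)) c_50_4619018 (by norm_num) (by norm_num)

theorem c_50_7945532 : (S 50 (7945532 / 266305 : ℝ)).Countable :=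
  cnt_R (d := 49) (c := (7945532 / 266305 : ℝ)) c_49_2309509 (by norm_num) (by norm_num)

theorem c_51_10896696 : (S 51 (10896696 / 266305 : ℝ)).Countable :=
  cnt_R (d := 50) (c := (10896696 / 266305 : ℝ)) c_50_7945532 (by norm_num) (by norm_num)

theorem c_50_5448348 : (S 50 (5448348 / 266305 : ℝ)).Countable :=
  cnt_L (d := 49) (c := (5448348 / 266305 : ℝ)) c_51_10896696 (by norm_num) (by norm_num)

theorem c_51_9648104 : (S 51 (9648104 / 266305 : ℝ)).Countable :=
  cnt_R (d := 50) (c := (9648104 / 266305 : ℝ)) c_50_5448348 (by norm_num) (by norm_num)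

theorem c_50_4824052 : (S 50 (4824052 / 266305 : ℝ)).Countable :=
  cnt_L (d := 49) (c := (4824052 / 266305 : ℝ)) c_51_9648104 (by norm_num) (by norm_num)

theorem c_51_9335956 : (S 51 (9335956 / 266305 : ℝ)).Countable :=
  cnt_R (d := 50) (c := (9335956 / 266305 : ℝ)) c_50_4824052 (by norm_num) (by norm_num)

theorem c_50_4667978 : (S 50 (4667978 / 266305 : ℝ)).Countable :=
  cnt_L (d := 49) (c := (4667978 / 266305 : ℝ)) c_51_9335956 (by norm_num) (by norm_num)

theorem c_51_9257919 : (S 51 (9257919 / 266305 : ℝ)).Countable :=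
  cnt_R (d := 50) (c := (9257919 / 266305 : ℝ)) c_50_4667978 (by norm_num) (by norm_num)

theorem c_52_11686042 : (S 52 (11686042 / 266305 : ℝ)).Countable :=
  cnt_R (d := 51) (c := (11686042 / 266305 : ℝ)) c_51_9257919 (by norm_num) (by norm_num)

theorem c_53_13033256 : (S 53 (13033256 / 266305 : ℝ)).Countable :=
  cnt_R (d := 52) (c := (13033256 / 266305 : ℝ)) c_52_11686042 (by norm_num) (by norm_num)

theorem c_52_6516628 : (S 52 (6516628 / 266305 : ℝ)).Countable :=
  cnt_L (d := 51) (c := (6516628 / 266305 : ℝ)) c_53_13033256 (by norm_num) (by norm_num)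

theorem c_53_10448549 : (S 53 (10448549 / 266305 : ℝ)).Countable :=
  cnt_R (d := 52) (c := (10448549 / 266305 : ℝ)) c_52_6516628 (by norm_num) (by norm_num)

theorem c_54_12547662 : (S 54 (12547662 / 266305 : ℝ)).Countable :=
  cnt_R (d := 53) (c := (12547662 / 266305 : ℝ)) c_53_10448549 (by norm_num) (by norm_num)

theorem c_55_13730371 : (S 55 (13730371 / 266305 : ℝ)).Countable :=
  cnt_R (d := 54) (c := (13730371 / 266305 : ℝ)) c_54_12547662 (by norm_num) (by norm_num)

theorem c_56_14454878 : (S 56 (14454878 / 266305 : ℝ)).Countable :=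
  cnt_R (d := 55) (c := (14454878 / 266305 : ℝ)) c_55_13730371 (by norm_num) (by norm_num)

theorem c_57_14950284 : (S 57 (14950284 / 266305 : ℝ)).Countable :=
  cnt_R (d := 56) (c := (14950284 / 266305 : ℝ)) c_56_14454878 (by norm_num) (by norm_num)

theorem c_56_7475142 : (S 56 (7475142 / 266305 : ℝ)).Countable :=
  cnt_L (d := 55) (c := (7475142 / 266305 : ℝ)) c_57_14950284 (by norm_num) (by norm_num)

theorem c_57_11460416 : (S 57 (11460416 / 266305 : ℝ)).Countable :=
  cnt_R (d := 56) (c := (11460416 / 266305 : ℝ)) c_56_7475142 (by norm_num) (by norm_num)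

theorem c_56_5730208 : (S 56 (5730208 / 266305 : ℝ)).Countable :=
  cnt_L (d := 55) (c := (5730208 / 266305 : ℝ)) c_57_11460416 (by norm_num) (by norm_num)

theorem c_55_2865104 : (S 55 (2865104 / 266305 : ℝ)).Countable :=
  cnt_L (d := 54) (c := (2865104 / 266305 : ℝ)) c_56_5730208 (by norm_num) (by norm_num)

theorem c_54_1432552 : (S 54 (1432552 / 266305 : ℝ)).Countable :=
  cnt_L (d := 53) (c := (1432552 / 266305 : ℝ)) c_55_2865104 (by norm_num) (by norm_num)

theorem c_55_8172816 : (S 55 (8172816 / 266305 : ℝ)).Countable :=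
  cnt_R (d := 54) (c := (8172816 / 266305 : ℝ)) c_54_1432552 (by norm_num) (by norm_num)

theorem c_54_4086408 : (S 54 (4086408 / 266305 : ℝ)).Countable :=
  cnt_L (d := 53) (c := (4086408 / 266305 : ℝ)) c_55_8172816 (by norm_num) (by norm_num)

theorem c_53_2043204 : (S 53 (2043204 / 266305 : ℝ)).Countable :=
  cnt_L (d := 52) (c := (2043204 / 266305 : ℝ)) c_54_4086408 (by norm_num) (by norm_num)

theorem c_52_1021602 : (S 52 (1021602 / 266305 : ℝ)).Countable :=
  cnt_L (d := 51) (c := (1021602 / 266305 : ℝ)) c_53_2043204 (by norm_num) (by norm_num)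

theorem c_53_7701036 : (S 53 (7701036 / 266305 : ℝ)).Countable :=
  cnt_R (d := 52) (c := (7701036 / 266305 : ℝ)) c_52_1021602 (by norm_num) (by norm_num)

theorem c_52_3850518 : (S 52 (3850518 / 266305 : ℝ)).Countable :=
  cnt_L (d := 51) (c := (3850518 / 266305 : ℝ)) c_53_7701036 (by norm_num) (by norm_num)

theorem c_51_1925259 : (S 51 (1925259 / 266305 : ℝ)).Countable :=
  cnt_L (d := 50) (c := (1925259 / 266305 : ℝ)) c_52_3850518 (by norm_num) (by norm_num)

theorem c_52_8019712 : (S 52 (8019712 / 266305 : ℝ)).Countable :=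
  cnt_R (d := 51) (c := (8019712 / 266305 : ℝ)) c_51_1925259 (by norm_num) (by norm_num)

theorem c_51_4009856 : (S 51 (4009856 / 266305 : ℝ)).Countable :=
  cnt_L (d := 50) (c := (4009856 / 266305 : ℝ)) c_52_8019712 (by norm_num) (by norm_num)

theorem c_50_2004928 : (S 50 (2004928 / 266305 : ℝ)).Countable :=
  cnt_L (d := 49) (c := (2004928 / 266305 : ℝ)) c_51_4009856 (by norm_num) (by norm_num)

theorem c_49_1002464 : (S 49 (1002464 / 266305 : ℝ)).Countable :=
  cnt_L (d := 48) (c := (1002464 / 266305 : ℝ)) c_50_2004928 (by norm_num) (by norm_num)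

theorem c_48_501232 : (S 48 (501232 / 266305 : ℝ)).Countable :=
  cnt_L (d := 47) (c := (501232 / 266305 : ℝ)) c_49_1002464 (by norm_num) (by norm_num)

theorem c_49_6908241 : (S 49 (6908241 / 266305 : ℝ)).Countable :=
  cnt_R (d := 48) (c := (6908241 / 266305 : ℝ)) c_48_501232 (by norm_num) (by norm_num)

theorem c_50_10244898 : (S 50 (10244898 / 266305 : ℝ)).Countable :=
  cnt_R (d := 49) (c := (10244898 / 266305 : ℝ)) c_49_6908241 (by norm_num) (by norm_num)

theorem c_49_5122449 : (S 49 (5122449 / 266305 : ℝ)).Countable :=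
  cnt_L (d := 48) (c := (5122449 / 266305 : ℝ)) c_50_10244898 (by norm_num) (by norm_num)

theorem c_50_9352002 : (S 50 (9352002 / 266305 : ℝ)).Countable :=
  cnt_R (d := 49) (c := (9352002 / 266305 : ℝ)) c_49_5122449 (by norm_num) (by norm_num)

theorem c_49_4676001 : (S 49 (4676001 / 266305 : ℝ)).Countable :=
  cnt_L (d := 48) (c := (4676001 / 266305 : ℝ)) c_50_9352002 (by norm_num) (by norm_num)

theorem c_50_9128778 : (S 50 (9128778 / 266305 : ℝ)).Countable :=
  cnt_R (d := 49) (c := (9128778 / 266305 : ℝ)) c_49_4676001 (by norm_num) (by norm_num)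

theorem c_51_11488319 : (S 51 (11488319 / 266305 : ℝ)).Countable :=
  cnt_R (d := 50) (c := (11488319 / 266305 : ℝ)) c_50_9128778 (by norm_num) (by norm_num)

theorem c_52_12801242 : (S 52 (12801242 / 266305 : ℝ)).Countable :=
  cnt_R (d := 51) (c := (12801242 / 266305 : ℝ)) c_51_11488319 (by norm_num) (by norm_num)

theorem c_53_13590856 : (S 53 (13590856 / 266305 : ℝ)).Countable :=
  cnt_R (d := 52) (c := (13590856 / 266305 : ℝ)) c_52_12801242 (by norm_num) (by norm_num)

theorem c_52_6795428 : (S 52 (6795428 / 266305 : ℝ)).Countable :=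
  cnt_L (d := 51) (c := (6795428 / 266305 : ℝ)) c_53_13590856 (by norm_num) (by norm_num)

theorem c_53_10587949 : (S 53 (10587949 / 266305 : ℝ)).Countable :=
  cnt_R (d := 52) (c := (10587949 / 266305 : ℝ)) c_52_6795428 (by norm_num) (by norm_num)

theorem c_54_12617362 : (S 54 (12617362 / 266305 : ℝ)).Countable :=
  cnt_R (d := 53) (c := (12617362 / 266305 : ℝ)) c_53_10587949 (by norm_num) (by norm_num)

theorem c_53_6308681 : (S 53 (6308681 / 266305 : ℝ)).Countable :=
  cnt_L (d := 52) (c := (6308681 / 266305 : ℝ)) c_54_12617362 (by norm_num) (by norm_num)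

theorem c_54_10477728 : (S 54 (10477728 / 266305 : ℝ)).Countable :=
  cnt_R (d := 53) (c := (10477728 / 266305 : ℝ)) c_53_6308681 (by norm_num) (by norm_num)

theorem c_53_5238864 : (S 53 (5238864 / 266305 : ℝ)).Countable :=
  cnt_L (d := 52) (c := (5238864 / 266305 : ℝ)) c_54_10477728 (by norm_num) (by norm_num)

theorem c_52_2619432 : (S 52 (2619432 / 266305 : ℝ)).Countable :=
  cnt_L (d := 51) (c := (2619432 / 266305 : ℝ)) c_53_5238864 (by norm_num) (by norm_num)

theorem c_51_1309716 : (S 51 (1309716 / 266305 : ℝ)).Countable :=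
  cnt_L (d := 50) (c := (1309716 / 266305 : ℝ)) c_52_2619432 (by norm_num) (by norm_num)

theorem c_50_654858 : (S 50 (654858 / 266305 : ℝ)).Countable :=
  cnt_L (d := 49) (c := (654858 / 266305 : ℝ)) c_51_1309716 (by norm_num) (by norm_num)

theorem c_49_327429 : (S 49 (327429 / 266305 : ℝ)).Countable :=
  cnt_L (d := 48) (c := (327429 / 266305 : ℝ)) c_50_654858 (by norm_num) (by norm_num)

theorem c_50_6954492 : (S 50 (6954492 / 266305 : ℝ)).Countable :=
  cnt_R (d := 49) (c := (6954492 / 266305 : ℝ)) c_49_327429 (by norm_num) (by norm_num)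

theorem c_51_10401176 : (S 51 (10401176 / 266305 : ℝ)).Countable :=
  cnt_R (d := 50) (c := (10401176 / 266305 : ℝ)) c_50_6954492 (by norm_num) (by norm_num)

theorem c_50_5200588 : (S 50 (5200588 / 266305 : ℝ)).Countable :=
  cnt_L (d := 49) (c := (5200588 / 266305 : ℝ)) c_51_10401176 (by norm_num) (by norm_num)

theorem c_51_9524224 : (S 51 (9524224 / 266305 : ℝ)).Countable :=
  cnt_R (d := 50) (c := (9524224 / 266305 : ℝ)) c_50_5200588 (by norm_num) (by norm_num)

theorem c_50_4762112 : (S 50 (4762112 / 266305 : ℝ)).Countable :=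
  cnt_L (d := 49) (c := (4762112 / 266305 : ℝ)) c_51_9524224 (by norm_num) (by norm_num)

theorem c_49_2381056 : (S 49 (2381056 / 266305 : ℝ)).Countable :=
  cnt_L (d := 48) (c := (2381056 / 266305 : ℝ)) c_50_4762112 (by norm_num) (by norm_num)

theorem c_48_1190528 : (S 48 (1190528 / 266305 : ℝ)).Countable :=
  cnt_L (d := 47) (c := (1190528 / 266305 : ℝ)) c_49_2381056 (by norm_num) (by norm_num)

theorem c_47_595264 : (S 47 (595264 / 266305 : ℝ)).Countable :=
  cnt_L (d := 46) (c := (595264 / 266305 : ℝ)) c_48_1190528 (by norm_num) (by norm_num)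

theorem c_46_297632 : (S 46 (297632 / 266305 : ℝ)).Countable :=
  cnt_L (d := 45) (c := (297632 / 266305 : ℝ)) c_47_595264 (by norm_num) (by norm_num)

theorem c_45_148816 : (S 45 (148816 / 266305 : ℝ)).Countable :=
  cnt_L (d := 44) (c := (148816 / 266305 : ℝ)) c_46_297632 (by norm_num) (by norm_num)

theorem c_44_74408 : (S 44 (74408 / 266305 : ℝ)).Countable :=
  cnt_L (d := 43) (c := (74408 / 266305 : ℝ)) c_45_148816 (by norm_num) (by norm_num)

theorem c_43_37204 : (S 43 (37204 / 266305 : ℝ)).Countable :=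
  cnt_L (d := 42) (c := (37204 / 266305 : ℝ)) c_44_74408 (by norm_num) (by norm_num)

theorem c_42_18602 : (S 42 (18602 / 266305 : ℝ)).Countable :=
  cnt_L (d := 41) (c := (18602 / 266305 : ℝ)) c_43_37204 (by norm_num) (by norm_num)

theorem c_41_9301 : (S 41 (9301 / 266305 : ℝ)).Countable :=
  cnt_L (d := 40) (c := (9301 / 266305 : ℝ)) c_42_18602 (by norm_num) (by norm_num)

theorem c_42_5730208 : (S 42 (5730208 / 266305 : ℝ)).Countable :=
  cnt_R (d := 41) (c := (5730208 / 266305 : ℝ)) c_41_9301 (by norm_num) (by norm_num)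

theorem c_41_2865104 : (S 41 (2865104 / 266305 : ℝ)).Countable :=
  cnt_L (d := 40) (c := (2865104 / 266305 : ℝ)) c_42_5730208 (by norm_num) (by norm_num)

theorem c_40_1432552 : (S 40 (1432552 / 266305 : ℝ)).Countable :=
  cnt_L (d := 39) (c := (1432552 / 266305 : ℝ)) c_41_2865104 (by norm_num) (by norm_num)

theorem c_39_716276 : (S 39 (716276 / 266305 : ℝ)).Countable :=
  cnt_L (d := 38) (c := (716276 / 266305 : ℝ)) c_40_1432552 (by norm_num) (by norm_num)

theorem c_38_358138 : (S 38 (358138 / 266305 : ℝ)).Countable :=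
  cnt_L (d := 37) (c := (358138 / 266305 : ℝ)) c_39_716276 (by norm_num) (by norm_num)

theorem c_37_179069 : (S 37 (179069 / 266305 : ℝ)).Countable :=
  cnt_L (d := 36) (c := (179069 / 266305 : ℝ)) c_38_358138 (by norm_num) (by norm_num)

theorem c_38_5282482 : (S 38 (5282482 / 266305 : ℝ)).Countable :=
  cnt_R (d := 37) (c := (5282482 / 266305 : ℝ)) c_37_179069 (by norm_num) (by norm_num)

theorem c_37_2641241 : (S 37 (2641241 / 266305 : ℝ)).Countable :=
  cnt_L (d := 36) (c := (2641241 / 266305 : ℝ)) c_38_5282482 (by norm_num) (by norm_num)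

theorem c_38_6513568 : (S 38 (6513568 / 266305 : ℝ)).Countable :=
  cnt_R (d := 37) (c := (6513568 / 266305 : ℝ)) c_37_2641241 (by norm_num) (by norm_num)

theorem c_37_3256784 : (S 37 (3256784 / 266305 : ℝ)).Countable :=
  cnt_L (d := 36) (c := (3256784 / 266305 : ℝ)) c_38_6513568 (by norm_num) (by norm_num)

theorem c_36_1628392 : (S 36 (1628392 / 266305 : ℝ)).Countable :=
  cnt_L (d := 35) (c := (1628392 / 266305 : ℝ)) c_37_3256784 (by norm_num) (by norm_num)

theorem c_35_814196 : (S 35 (814196 / 266305 : ℝ)).Countable :=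
  cnt_L (d := 34) (c := (814196 / 266305 : ℝ)) c_36_1628392 (by norm_num) (by norm_num)

theorem c_34_407098 : (S 34 (407098 / 266305 : ℝ)).Countable :=
  cnt_L (d := 33) (c := (407098 / 266305 : ℝ)) c_35_814196 (by norm_num) (by norm_num)

theorem c_33_203549 : (S 33 (203549 / 266305 : ℝ)).Countable :=
  cnt_L (d := 32) (c := (203549 / 266305 : ℝ)) c_34_407098 (by norm_num) (by norm_num)

theorem c_34_4762112 : (S 34 (4762112 / 266305 : ℝ)).Countable :=
  cnt_R (d := 33) (c := (4762112 / 266305 : ℝ)) c_33_203549 (by norm_num) (by norm_num)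

theorem c_33_2381056 : (S 33 (2381056 / 266305 : ℝ)).Countable :=
  cnt_L (d := 32) (c := (2381056 / 266305 : ℝ)) c_34_4762112 (by norm_num) (by norm_num)

theorem c_32_1190528 : (S 32 (1190528 / 266305 : ℝ)).Countable :=
  cnt_L (d := 31) (c := (1190528 / 266305 : ℝ)) c_33_2381056 (by norm_num) (by norm_num)

theorem c_31_595264 : (S 31 (595264 / 266305 : ℝ)).Countable :=
  cnt_L (d := 30) (c := (595264 / 266305 : ℝ)) c_32_1190528 (by norm_num) (by norm_num)

theorem c_30_297632 : (S 30 (297632 / 266305 : ℝ)).Countable :=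
  cnt_L (d := 29) (c := (297632 / 266305 : ℝ)) c_31_595264 (by norm_num) (by norm_num)

theorem c_29_148816 : (S 29 (148816 / 266305 : ℝ)).Countable :=
  cnt_L (d := 28) (c := (148816 / 266305 : ℝ)) c_30_297632 (by norm_num) (by norm_num)

theorem c_28_74408 : (S 28 (74408 / 266305 : ℝ)).Countable :=
  cnt_L (d := 27) (c := (74408 / 266305 : ℝ)) c_29_148816 (by norm_num) (by norm_num)

theorem c_27_37204 : (S 27 (37204 / 266305 : ℝ)).Countable :=
  cnt_L (d := 26) (c := (37204 / 266305 : ℝ)) c_28_74408 (by norm_num) (by norm_num)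

theorem c_26_18602 : (S 26 (18602 / 266305 : ℝ)).Countable :=
  cnt_L (d := 25) (c := (18602 / 266305 : ℝ)) c_27_37204 (by norm_num) (by norm_num)

theorem c_25_9301 : (S 25 (9301 / 266305 : ℝ)).Countable :=
  cnt_L (d := 24) (c := (9301 / 266305 : ℝ)) c_26_18602 (by norm_num) (by norm_num)

theorem c_26_3599768 : (S 26 (3599768 / 266305 : ℝ)).Countable :=
  cnt_R (d := 25) (c := (3599768 / 266305 : ℝ)) c_25_9301 (by norm_num) (by norm_num)

theorem c_25_1799884 : (S 25 (1799884 / 266305 : ℝ)).Countable :=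
  cnt_L (d := 24) (c := (1799884 / 266305 : ℝ)) c_26_3599768 (by norm_num) (by norm_num)

theorem c_24_899942 : (S 24 (899942 / 266305 : ℝ)).Countable :=
  cnt_L (d := 23) (c := (899942 / 266305 : ℝ)) c_25_1799884 (by norm_num) (by norm_num)

theorem c_25_3911936 : (S 25 (3911936 / 266305 : ℝ)).Countable :=
  cnt_R (d := 24) (c := (3911936 / 266305 : ℝ)) c_24_899942 (by norm_num) (by norm_num)

theorem c_24_1955968 : (S 24 (1955968 / 266305 : ℝ)).Countable :=
  cnt_L (d := 23) (c := (1955968 / 266305 : ℝ)) c_25_3911936 (by norm_num) (by norm_num)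

theorem c_23_977984 : (S 23 (977984 / 266305 : ℝ)).Countable :=
  cnt_L (d := 22) (c := (977984 / 266305 : ℝ)) c_24_1955968 (by norm_num) (by norm_num)

theorem c_22_488992 : (S 22 (488992 / 266305 : ℝ)).Countable :=
  cnt_L (d := 21) (c := (488992 / 266305 : ℝ)) c_23_977984 (by norm_num) (by norm_num)

theorem c_21_244496 : (S 21 (244496 / 266305 : ℝ)).Countable :=
  cnt_L (d := 20) (c := (244496 / 266305 : ℝ)) c_22_488992 (by norm_num) (by norm_num)

theorem c_20_122248 : (S 20 (122248 / 266305 : ℝ)).Countable :=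
  cnt_L (d := 19) (c := (122248 / 266305 : ℝ)) c_21_244496 (by norm_num) (by norm_num)

theorem c_19_61124 : (S 19 (61124 / 266305 : ℝ)).Countable :=
  cnt_L (d := 18) (c := (61124 / 266305 : ℝ)) c_20_122248 (by norm_num) (by norm_num)

theorem c_18_30562 : (S 18 (30562 / 266305 : ℝ)).Countable :=
  cnt_L (d := 17) (c := (30562 / 266305 : ℝ)) c_19_61124 (by norm_num) (by norm_num)

theorem c_17_15281 : (S 17 (15281 / 266305 : ℝ)).Countable :=
  cnt_L (d := 16) (c := (15281 / 266305 : ℝ)) c_18_30562 (by norm_num) (by norm_num)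

theorem c_18_2537538 : (S 18 (2537538 / 266305 : ℝ)).Countable :=
  cnt_R (d := 17) (c := (2537538 / 266305 : ℝ)) c_17_15281 (by norm_num) (by norm_num)

theorem c_19_3931819 : (S 19 (3931819 / 266305 : ℝ)).Countable :=
  cnt_R (d := 18) (c := (3931819 / 266305 : ℝ)) c_18_2537538 (by norm_num) (by norm_num)

theorem c_20_4762112 : (S 20 (4762112 / 266305 : ℝ)).Countable :=
  cnt_R (d := 19) (c := (4762112 / 266305 : ℝ)) c_19_3931819 (by norm_num) (by norm_num)

theorem c_19_2381056 : (S 19 (2381056 / 266305 : ℝ)).Countable :=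
  cnt_L (d := 18) (c := (2381056 / 266305 : ℝ)) c_20_4762112 (by norm_num) (by norm_num)

theorem c_18_1190528 : (S 18 (1190528 / 266305 : ℝ)).Countable :=
  cnt_L (d := 17) (c := (1190528 / 266305 : ℝ)) c_19_2381056 (by norm_num) (by norm_num)

theorem c_17_595264 : (S 17 (595264 / 266305 : ℝ)).Countable :=
  cnt_L (d := 16) (c := (595264 / 266305 : ℝ)) c_18_1190528 (by norm_num) (by norm_num)

theorem c_16_297632 : (S 16 (297632 / 266305 : ℝ)).Countable :=
  cnt_L (d := 15) (c := (297632 / 266305 : ℝ)) c_17_595264 (by norm_num) (by norm_num)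

theorem c_15_148816 : (S 15 (148816 / 266305 : ℝ)).Countable :=
  cnt_L (d := 14) (c := (148816 / 266305 : ℝ)) c_16_297632 (by norm_num) (by norm_num)

theorem c_14_74408 : (S 14 (74408 / 266305 : ℝ)).Countable :=
  cnt_L (d := 13) (c := (74408 / 266305 : ℝ)) c_15_148816 (by norm_num) (by norm_num)

theorem c_13_37204 : (S 13 (37204 / 266305 : ℝ)).Countable :=
  cnt_L (d := 12) (c := (37204 / 266305 : ℝ)) c_14_74408 (by norm_num) (by norm_num)

theorem c_12_18602 : (S 12 (18602 / 266305 : ℝ)).Countable :=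
  cnt_L (d := 11) (c := (18602 / 266305 : ℝ)) c_13_37204 (by norm_num) (by norm_num)

theorem c_13_1873436 : (S 13 (1873436 / 266305 : ℝ)).Countable :=
  cnt_R (d := 12) (c := (1873436 / 266305 : ℝ)) c_12_18602 (by norm_num) (by norm_num)

theorem c_12_936718 : (S 12 (936718 / 266305 : ℝ)).Countable :=
  cnt_L (d := 11) (c := (936718 / 266305 : ℝ)) c_13_1873436 (by norm_num) (by norm_num)

theorem c_11_468359 : (S 11 (468359 / 266305 : ℝ)).Countable :=
  cnt_L (d := 10) (c := (468359 / 266305 : ℝ)) c_12_936718 (by norm_num) (by norm_num)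

theorem c_12_1965162 : (S 12 (1965162 / 266305 : ℝ)).Countable :=
  cnt_R (d := 11) (c := (1965162 / 266305 : ℝ)) c_11_468359 (by norm_num) (by norm_num)

theorem c_13_2846716 : (S 13 (2846716 / 266305 : ℝ)).Countable :=
  cnt_R (d := 12) (c := (2846716 / 266305 : ℝ)) c_12_1965162 (by norm_num) (by norm_num)

theorem c_12_1423358 : (S 12 (1423358 / 266305 : ℝ)).Countable :=
  cnt_L (d := 11) (c := (1423358 / 266305 : ℝ)) c_13_2846716 (by norm_num) (by norm_num)

theorem c_11_711679 : (S 11 (711679 / 266305 : ℝ)).Countable :=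
  cnt_L (d := 10) (c := (711679 / 266305 : ℝ)) c_12_1423358 (by norm_num) (by norm_num)

theorem c_12_2086822 : (S 12 (2086822 / 266305 : ℝ)).Countable :=
  cnt_R (d := 11) (c := (2086822 / 266305 : ℝ)) c_11_711679 (by norm_num) (by norm_num)

theorem c_11_1043411 : (S 11 (1043411 / 266305 : ℝ)).Countable :=
  cnt_L (d := 10) (c := (1043411 / 266305 : ℝ)) c_12_2086822 (by norm_num) (by norm_num)

theorem c_12_2252688 : (S 12 (2252688 / 266305 : ℝ)).Countable :=
  cnt_R (d := 11) (c := (2252688 / 266305 : ℝ)) c_11_1043411 (by norm_num) (by norm_num)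

theorem c_11_1126344 : (S 11 (1126344 / 266305 : ℝ)).Countable :=
  cnt_L (d := 10) (c := (1126344 / 266305 : ℝ)) c_12_2252688 (by norm_num) (by norm_num)

theorem c_10_563172 : (S 10 (563172 / 266305 : ℝ)).Countable :=
  cnt_L (d := 9) (c := (563172 / 266305 : ℝ)) c_11_1126344 (by norm_num) (by norm_num)

theorem c_11_1879416 : (S 11 (1879416 / 266305 : ℝ)).Countable :=
  cnt_R (d := 10) (c := (1879416 / 266305 : ℝ)) c_10_563172 (by norm_num) (by norm_num)

theorem c_10_939708 : (S 10 (939708 / 266305 : ℝ)).Countable :=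
  cnt_L (d := 9) (c := (939708 / 266305 : ℝ)) c_11_1879416 (by norm_num) (by norm_num)

theorem c_11_2067684 : (S 11 (2067684 / 266305 : ℝ)).Countable :=
  cnt_R (d := 10) (c := (2067684 / 266305 : ℝ)) c_10_939708 (by norm_num) (by norm_num)

theorem c_10_1033842 : (S 10 (1033842 / 266305 : ℝ)).Countable :=
  cnt_L (d := 9) (c := (1033842 / 266305 : ℝ)) c_11_2067684 (by norm_num) (by norm_num)

theorem c_9_516921 : (S 9 (516921 / 266305 : ℝ)).Countable :=
  cnt_L (d := 8) (c := (516921 / 266305 : ℝ)) c_10_1033842 (by norm_num) (by norm_num)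

theorem c_10_1723138 : (S 10 (1723138 / 266305 : ℝ)).Countable :=
  cnt_R (d := 9) (c := (1723138 / 266305 : ℝ)) c_9_516921 (by norm_num) (by norm_num)

theorem c_11_2459399 : (S 11 (2459399 / 266305 : ℝ)).Countable :=
  cnt_R (d := 10) (c := (2459399 / 266305 : ℝ)) c_10_1723138 (by norm_num) (by norm_num)

theorem c_12_2960682 : (S 12 (2960682 / 266305 : ℝ)).Countable :=
  cnt_R (d := 11) (c := (2960682 / 266305 : ℝ)) c_11_2459399 (by norm_num) (by norm_num)

theorem c_13_3344476 : (S 13 (3344476 / 266305 : ℝ)).Countable :=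
  cnt_R (d := 12) (c := (3344476 / 266305 : ℝ)) c_12_2960682 (by norm_num) (by norm_num)

theorem c_12_1672238 : (S 12 (1672238 / 266305 : ℝ)).Countable :=
  cnt_L (d := 11) (c := (1672238 / 266305 : ℝ)) c_13_3344476 (by norm_num) (by norm_num)

theorem c_11_836119 : (S 11 (836119 / 266305 : ℝ)).Countable :=
  cnt_L (d := 10) (c := (836119 / 266305 : ℝ)) c_12_1672238 (by norm_num) (by norm_num)

theorem c_12_2149042 : (S 12 (2149042 / 266305 : ℝ)).Countable :=
  cnt_R (d := 11) (c := (2149042 / 266305 : ℝ)) c_11_836119 (by norm_num) (by norm_num)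

theorem c_13_2938656 : (S 13 (2938656 / 266305 : ℝ)).Countable :=
  cnt_R (d := 12) (c := (2938656 / 266305 : ℝ)) c_12_2149042 (by norm_num) (by norm_num)

theorem c_12_1469328 : (S 12 (1469328 / 266305 : ℝ)).Countable :=
  cnt_L (d := 11) (c := (1469328 / 266305 : ℝ)) c_13_2938656 (by norm_num) (by norm_num)

theorem c_11_734664 : (S 11 (734664 / 266305 : ℝ)).Countable :=
  cnt_L (d := 10) (c := (734664 / 266305 : ℝ)) c_12_1469328 (by norm_num) (by norm_num)

theorem c_10_367332 : (S 10 (367332 / 266305 : ℝ)).Countable :=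
  cnt_L (d := 9) (c := (367332 / 266305 : ℝ)) c_11_734664 (by norm_num) (by norm_num)

theorem c_11_1781496 : (S 11 (1781496 / 266305 : ℝ)).Countable :=
  cnt_R (d := 10) (c := (1781496 / 266305 : ℝ)) c_10_367332 (by norm_num) (by norm_num)

theorem c_10_890748 : (S 10 (890748 / 266305 : ℝ)).Countable :=
  cnt_L (d := 9) (c := (890748 / 266305 : ℝ)) c_11_1781496 (by norm_num) (by norm_num)

theorem c_11_2043204 : (S 11 (2043204 / 266305 : ℝ)).Countable :=
  cnt_R (d := 10) (c := (2043204 / 266305 : ℝ)) c_10_890748 (by norm_num) (by norm_num)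

theorem c_10_1021602 : (S 10 (1021602 / 266305 : ℝ)).Countable :=
  cnt_L (d := 9) (c := (1021602 / 266305 : ℝ)) c_11_2043204 (by norm_num) (by norm_num)

theorem c_11_2108631 : (S 11 (2108631 / 266305 : ℝ)).Countable :=
  cnt_R (d := 10) (c := (2108631 / 266305 : ℝ)) c_10_1021602 (by norm_num) (by norm_num)

theorem c_12_2785298 : (S 12 (2785298 / 266305 : ℝ)).Countable :=
  cnt_R (d := 11) (c := (2785298 / 266305 : ℝ)) c_11_2108631 (by norm_num) (by norm_num)

theorem c_13_3256784 : (S 13 (3256784 / 266305 : ℝ)).Countable :=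
  cnt_R (d := 12) (c := (3256784 / 266305 : ℝ)) c_12_2785298 (by norm_num) (by norm_num)

theorem c_12_1628392 : (S 12 (1628392 / 266305 : ℝ)).Countable :=
  cnt_L (d := 11) (c := (1628392 / 266305 : ℝ)) c_13_3256784 (by norm_num) (by norm_num)

theorem c_11_814196 : (S 11 (814196 / 266305 : ℝ)).Countable :=
  cnt_L (d := 10) (c := (814196 / 266305 : ℝ)) c_12_1628392 (by norm_num) (by norm_num)

theorem c_10_407098 : (S 10 (407098 / 266305 : ℝ)).Countable :=
  cnt_L (d := 9) (c := (407098 / 266305 : ℝ)) c_11_814196 (by norm_num) (by norm_num)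

theorem c_9_203549 : (S 9 (203549 / 266305 : ℝ)).Countable :=
  cnt_L (d := 8) (c := (203549 / 266305 : ℝ)) c_10_407098 (by norm_num) (by norm_num)

theorem c_10_1566452 : (S 10 (1566452 / 266305 : ℝ)).Countable :=
  cnt_R (d := 9) (c := (1566452 / 266305 : ℝ)) c_9_203549 (by norm_num) (by norm_num)

theorem c_11_2381056 : (S 11 (2381056 / 266305 : ℝ)).Countable :=
  cnt_R (d := 10) (c := (2381056 / 266305 : ℝ)) c_10_1566452 (by norm_num) (by norm_num)

theorem c_10_1190528 : (S 10 (1190528 / 266305 : ℝ)).Countable :=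
  cnt_L (d := 9) (c := (1190528 / 266305 : ℝ)) c_11_2381056 (by norm_num) (by norm_num)

theorem c_9_595264 : (S 9 (595264 / 266305 : ℝ)).Countable :=
  cnt_L (d := 8) (c := (595264 / 266305 : ℝ)) c_10_1190528 (by norm_num) (by norm_num)

theorem c_8_297632 : (S 8 (297632 / 266305 : ℝ)).Countable :=
  cnt_L (d := 7) (c := (297632 / 266305 : ℝ)) c_9_595264 (by norm_num) (by norm_num)

theorem c_7_148816 : (S 7 (148816 / 266305 : ℝ)).Countable :=
  cnt_L (d := 6) (c := (148816 / 266305 : ℝ)) c_8_297632 (by norm_num) (by norm_num)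

theorem c_6_74408 : (S 6 (74408 / 266305 : ℝ)).Countable :=
  cnt_L (d := 5) (c := (74408 / 266305 : ℝ)) c_7_148816 (by norm_num) (by norm_num)

theorem c_5_37204 : (S 5 (37204 / 266305 : ℝ)).Countable :=
  cnt_L (d := 4) (c := (37204 / 266305 : ℝ)) c_6_74408 (by norm_num) (by norm_num)

theorem c_4_18602 : (S 4 (18602 / 266305 : ℝ)).Countable :=
  cnt_L (d := 3) (c := (18602 / 266305 : ℝ)) c_5_37204 (by norm_num) (by norm_num)

theorem c_5_808216 : (S 5 (808216 / 266305 : ℝ)).Countable :=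
  cnt_R (d := 4) (c := (808216 / 266305 : ℝ)) c_4_18602 (by norm_num) (by norm_num)

theorem c_4_404108 : (S 4 (404108 / 266305 : ℝ)).Countable :=
  cnt_L (d := 3) (c := (404108 / 266305 : ℝ)) c_5_808216 (by norm_num) (by norm_num)

theorem c_5_1000969 : (S 5 (1000969 / 266305 : ℝ)).Countable :=
  cnt_R (d := 4) (c := (1000969 / 266305 : ℝ)) c_4_404108 (by norm_num) (by norm_num)

theorem c_6_1432552 : (S 6 (1432552 / 266305 : ℝ)).Countable :=
  cnt_R (d := 5) (c := (1432552 / 266305 : ℝ)) c_5_1000969 (by norm_num) (by norm_num)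

theorem c_5_716276 : (S 5 (716276 / 266305 : ℝ)).Countable :=
  cnt_L (d := 4) (c := (716276 / 266305 : ℝ)) c_6_1432552 (by norm_num) (by norm_num)

theorem c_4_358138 : (S 4 (358138 / 266305 : ℝ)).Countable :=
  cnt_L (d := 3) (c := (358138 / 266305 : ℝ)) c_5_716276 (by norm_num) (by norm_num)

theorem c_5_977984 : (S 5 (977984 / 266305 : ℝ)).Countable :=
  cnt_R (d := 4) (c := (977984 / 266305 : ℝ)) c_4_358138 (by norm_num) (by norm_num)

theorem c_4_488992 : (S 4 (488992 / 266305 : ℝ)).Countable :=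
  cnt_L (d := 3) (c := (488992 / 266305 : ℝ)) c_5_977984 (by norm_num) (by norm_num)

theorem c_3_244496 : (S 3 (244496 / 266305 : ℝ)).Countable :=
  cnt_L (d := 2) (c := (244496 / 266305 : ℝ)) c_4_488992 (by norm_num) (by norm_num)

theorem c_2_122248 : (S 2 (122248 / 266305 : ℝ)).Countable :=
  cnt_L (d := 1) (c := (122248 / 266305 : ℝ)) c_3_244496 (by norm_num) (by norm_num)

theorem c_1_61124 : (S 1 (61124 / 266305 : ℝ)).Countable :=
  cnt_L (d := 0) (c := (61124 / 266305 : ℝ)) c_2_122248 (by norm_num) (by norm_num)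

theorem c_0_30562 : (S 0 (30562 / 266305 : ℝ)).Countable :=
  cnt_Z (c := (30562 / 266305 : ℝ)) c_1_61124 (by norm_num)

theorem c_1_281586 : (S 1 (281586 / 266305 : ℝ)).Countable :=
  cnt_B (d := 0) (c := (281586 / 266305 : ℝ)) c_2_563172 (by norm_num) c_0_30562 (by norm_num)

theorem c_0_140793 : (S 0 (140793 / 266305 : ℝ)).Countable :=
  cnt_Z (c := (140793 / 266305 : ℝ)) c_1_281586 (by norm_num)

theorem c_1_183666 : (S 1 (183666 / 266305 : ℝ)).Countable :=
  cnt_L (d := 0) (c := (183666 / 266305 : ℝ)) c_2_367332 (by norm_num) (by norm_num)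

theorem c_0_91833 : (S 0 (91833 / 266305 : ℝ)).Countable :=
  cnt_Z (c := (91833 / 266305 : ℝ)) c_1_183666 (by norm_num)

theorem c_1_202054 : (S 1 (202054 / 266305 : ℝ)).Countable :=
  cnt_L (d := 0) (c := (202054 / 266305 : ℝ)) c_2_404108 (by norm_num) (by norm_num)

theorem c_0_101027 : (S 0 (101027 / 266305 : ℝ)).Countable :=
  cnt_Z (c := (101027 / 266305 : ℝ)) c_1_202054 (by norm_num)

theorem c_1_275606 : (S 1 (275606 / 266305 : ℝ)).Countable :=
  cnt_B (d := 0) (c := (275606 / 266305 : ℝ)) c_2_551212 (by norm_num) c_0_18602 (by norm_num)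

theorem c_0_137803 : (S 0 (137803 / 266305 : ℝ)).Countable :=
  cnt_Z (c := (137803 / 266305 : ℝ)) c_1_275606 (by norm_num)

end Pool.Agent.FS.TakagiRank
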