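import Pool.Agent.FS.TakagiRank.Tail

namespace Pool.Agent.FS.TakagiRank

open Set Pool.Agent.Lib.MP_4a5b11_an

theorem self1 {P : ℕ → ℝ → Set ℝ} (F : Fam P) (t : ℝ) (h0 : t ∈ P 2 (407098 / 266305 : ℝ)) :
    (8445287 / 16777216 : ℝ) + 1 / 16777216 * t ∈ P 2 (407098 / 266305 : ℝ) := by
  have h1 := F.R (d := 2) (c := (736159 / 266305 : ℝ)) h0 (by norm_num)
  have h2 := F.R (d := 3) (c := (1033842 / 266305 : ℝ)) h1 (by norm_num)
  have h3 := F.R (d := 4) (c := (1315836 / 266305 : ℝ)) h2 (by norm_num)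
  have h4 := F.L (d := 4) (c := (657918 / 266305 : ℝ)) h3 (by norm_num)
  have h5 := F.L (d := 3) (c := (328959 / 266305 : ℝ)) h4 (by norm_num)
  have h6 := F.R (d := 3) (c := (830242 / 266305 : ℝ)) h5 (by norm_num)
  have h7 := F.R (d := 4) (c := (1214036 / 266305 : ℝ)) h6 (by norm_num)
  have h8 := F.L (d := 4) (c := (607018 / 266305 : ℝ)) h7 (by norm_num)
  have h9 := F.R (d := 4) (c := (1102424 / 266305 : ℝ)) h8 (by norm_num)
  have h10 := F.L (d := 4) (c := (551212 / 266305 : ℝ)) h9 (by norm_num)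
  have h11 := F.R (d := 4) (c := (1074521 / 266305 : ℝ)) h10 (by norm_num)
  have h12 := F.R (d := 5) (c := (1469328 / 266305 : ℝ)) h11 (by norm_num)
  have h13 := F.R (d := 6) (c := (1799884 / 266305 : ℝ)) h12 (by norm_num)
  have h14 := F.L (d := 6) (c := (899942 / 266305 : ℝ)) h13 (by norm_num)
  have h15 := F.R (d := 6) (c := (1515191 / 266305 : ℝ)) h14 (by norm_num)
  have h16 := F.R (d := 7) (c := (1955968 / 266305 : ℝ)) h15 (by norm_num)
  have h17 := F.L (d := 7) (c := (977984 / 266305 : ℝ)) h16 (by norm_num)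
  have h18 := F.L (d := 6) (c := (488992 / 266305 : ℝ)) h17 (by norm_num)
  have h19 := F.L (d := 5) (c := (244496 / 266305 : ℝ)) h18 (by norm_num)
  have h20 := F.L (d := 4) (c := (122248 / 266305 : ℝ)) h19 (by norm_num)
  have h21 := F.L (d := 3) (c := (61124 / 266305 : ℝ)) h20 (by norm_num)
  have h22 := F.L (d := 2) (c := (30562 / 266305 : ℝ)) h21 (by norm_num)
  have h23 := F.L (d := 1) (c := (15281 / 266305 : ℝ)) h22 (by norm_num)
  have h24 := F.R (d := 1) (c := (407098 / 266305 : ℝ)) h23 (by norm_num)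
  convert h24 using 1
  ring

theorem self2 {P : ℕ → ℝ → Set ℝ} (F : Fam P) (t : ℝ) (h0 : t ∈ P 2 (404108 / 266305 : ℝ)) :
    (8420725 / 16777216 : ℝ) + 1 / 16777216 * t ∈ P 2 (404108 / 266305 : ℝ) := by
  have h1 := F.R (d := 2) (c := (734664 / 266305 : ℝ)) h0 (by norm_num)
  have h2 := F.L (d := 2) (c := (367332 / 266305 : ℝ)) h1 (by norm_num)
  have h3 := F.R (d := 2) (c := (716276 / 266305 : ℝ)) h2 (by norm_num)
  have h4 := F.L (d := 2) (c := (358138 / 266305 : ℝ)) h3 (by norm_num)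
  have h5 := F.R (d := 2) (c := (711679 / 266305 : ℝ)) h4 (by norm_num)
  have h6 := F.R (d := 3) (c := (1021602 / 266305 : ℝ)) h5 (by norm_num)
  have h7 := F.R (d := 4) (c := (1309716 / 266305 : ℝ)) h6 (by norm_num)
  have h8 := F.L (d := 4) (c := (654858 / 266305 : ℝ)) h7 (by norm_num)
  have h9 := F.R (d := 4) (c := (1126344 / 266305 : ℝ)) h8 (by norm_num)
  have h10 := F.L (d := 4) (c := (563172 / 266305 : ℝ)) h9 (by norm_num)
  have h11 := F.R (d := 4) (c := (1080501 / 266305 : ℝ)) h10 (by norm_num)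
  have h12 := F.R (d := 5) (c := (1472318 / 266305 : ℝ)) h11 (by norm_num)
  have h13 := F.R (d := 6) (c := (1801379 / 266305 : ℝ)) h12 (by norm_num)
  have h14 := F.R (d := 7) (c := (2099062 / 266305 : ℝ)) h13 (by norm_num)
  have h15 := F.R (d := 8) (c := (2381056 / 266305 : ℝ)) h14 (by norm_num)
  have h16 := F.L (d := 8) (c := (1190528 / 266305 : ℝ)) h15 (by norm_num)
  have h17 := F.L (d := 7) (c := (595264 / 266305 : ℝ)) h16 (by norm_num)
  have h18 := F.L (d := 6) (c := (297632 / 266305 : ℝ)) h17 (by norm_num)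
  have h19 := F.L (d := 5) (c := (148816 / 266305 : ℝ)) h18 (by norm_num)
  have h20 := F.L (d := 4) (c := (74408 / 266305 : ℝ)) h19 (by norm_num)
  have h21 := F.L (d := 3) (c := (37204 / 266305 : ℝ)) h20 (by norm_num)
  have h22 := F.L (d := 2) (c := (18602 / 266305 : ℝ)) h21 (by norm_num)
  have h23 := F.L (d := 1) (c := (9301 / 266305 : ℝ)) h22 (by norm_num)
  have h24 := F.R (d := 1) (c := (404108 / 266305 : ℝ)) h23 (by norm_num)
  convert h24 using 1
  ring

theorem path12 {P : ℕ → ℝ → Set ℝ} (F : Fam P) (t : ℝ) (h0 : t ∈ P 2 (404108 / 266305 : ℝ)) :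
    (1829 / 2048 : ℝ) + 1 / 2048 * t ∈ P 3 (814196 / 266305 : ℝ) := by
  have h1 := F.R (d := 2) (c := (734664 / 266305 : ℝ)) h0 (by norm_num)
  have h2 := F.L (d := 2) (c := (367332 / 266305 : ℝ)) h1 (by norm_num)
  have h3 := F.R (d := 2) (c := (716276 / 266305 : ℝ)) h2 (by norm_num)
  have h4 := F.L (d := 2) (c := (358138 / 266305 : ℝ)) h3 (by norm_num)
  have h5 := F.L (d := 1) (c := (179069 / 266305 : ℝ)) h4 (by norm_num)
  have h6 := F.R (d := 1) (c := (488992 / 266305 : ℝ)) h5 (by norm_num)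
  have h7 := F.L (d := 1) (c := (244496 / 266305 : ℝ)) h6 (by norm_num)
  have h8 := F.L (d := 0) (c := (122248 / 266305 : ℝ)) h7 (by norm_num)
  have h9 := F.R (d := 0) (c := (327429 / 266305 : ℝ)) h8 (by norm_num)
  have h10 := F.R (d := 1) (c := (563172 / 266305 : ℝ)) h9 (by norm_num)
  have h11 := F.R (d := 2) (c := (814196 / 266305 : ℝ)) h10 (by norm_num)
  convert h11 using 1
  ring

theorem path01 {P : ℕ → ℝ → Set ℝ} (F : Fam P) (t : ℝ) (h0 : t ∈ P 2 (407098 / 266305 : ℝ)) :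
    (56679 / 8388608 : ℝ) + 1 / 8388608 * t ∈ P 1 (15281 / 266305 : ℝ) := by
  have h1 := F.R (d := 2) (c := (736159 / 266305 : ℝ)) h0 (by norm_num)
  have h2 := F.R (d := 3) (c := (1033842 / 266305 : ℝ)) h1 (by norm_num)
  have h3 := F.R (d := 4) (c := (1315836 / 266305 : ℝ)) h2 (by norm_num)
  have h4 := F.L (d := 4) (c := (657918 / 266305 : ℝ)) h3 (by norm_num)
  have h5 := F.L (d := 3) (c := (328959 / 266305 : ℝ)) h4 (by norm_num)
  have h6 := F.R (d := 3) (c := (830242 / 266305 : ℝ)) h5 (by norm_num)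
  have h7 := F.R (d := 4) (c := (1214036 / 266305 : ℝ)) h6 (by norm_num)
  have h8 := F.L (d := 4) (c := (607018 / 266305 : ℝ)) h7 (by norm_num)
  have h9 := F.R (d := 4) (c := (1102424 / 266305 : ℝ)) h8 (by norm_num)
  have h10 := F.L (d := 4) (c := (551212 / 266305 : ℝ)) h9 (by norm_num)
  have h11 := F.R (d := 4) (c := (1074521 / 266305 : ℝ)) h10 (by norm_num)
  have h12 := F.R (d := 5) (c := (1469328 / 266305 : ℝ)) h11 (by norm_num)
  have h13 := F.R (d := 6) (c := (1799884 / 266305 : ℝ)) h12 (by norm_num)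
  have h14 := F.L (d := 6) (c := (899942 / 266305 : ℝ)) h13 (by norm_num)
  have h15 := F.R (d := 6) (c := (1515191 / 266305 : ℝ)) h14 (by norm_num)
  have h16 := F.R (d := 7) (c := (1955968 / 266305 : ℝ)) h15 (by norm_num)
  have h17 := F.L (d := 7) (c := (977984 / 266305 : ℝ)) h16 (by norm_num)
  have h18 := F.L (d := 6) (c := (488992 / 266305 : ℝ)) h17 (by norm_num)
  have h19 := F.L (d := 5) (c := (244496 / 266305 : ℝ)) h18 (by norm_num)
  have h20 := F.L (d := 4) (c := (122248 / 266305 : ℝ)) h19 (by norm_num)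
  have h21 := F.L (d := 3) (c := (61124 / 266305 : ℝ)) h20 (by norm_num)
  have h22 := F.L (d := 2) (c := (30562 / 266305 : ℝ)) h21 (by norm_num)
  have h23 := F.L (d := 1) (c := (15281 / 266305 : ℝ)) h22 (by norm_num)
  convert h23 using 1
  ring

theorem inf2 : (S 2 (404108 / 266305 : ℝ)).Infinite := by
  obtain ⟨u, hu⟩ := S_nonempty' 3 (808216 / 266305 : ℝ) (by norm_num) (by norm_num)
  have h1 := famS.L (d := 2) (c := (404108 / 266305 : ℝ)) hu (by norm_num)
  refine infinite_of_map (by norm_num) (by norm_num) (self2 famS) h1 ?_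
  have e0 := hu.1.1
  have e1 := hu.1.2
  intro e
  linarith

theorem inf1 : (D 2 (407098 / 266305 : ℝ)).Infinite := by
  obtain ⟨v, hv⟩ := D_nonempty inf2
  have hu := path12 famD v hv
  have h1 := famD.L (d := 2) (c := (407098 / 266305 : ℝ)) hu (by norm_num)
  refine infinite_of_map (by norm_num) (by norm_num) (self1 famD) h1 ?_
  have e0 := (D_subset hu).1
  have e1 := (D_subset hu).2
  intro e
  linarith

theorem inf0 : (D 1 (15281 / 266305 : ℝ)).Infinite := by
  refine Set.infinite_of_injOn_mapsTo (f := fun t : ℝ => (56679 / 8388608 : ℝ) + 1 / 8388608 * t)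
    ?_ (fun t ht => path01 famD t ht) inf1
  intro s _ t _ e
  simp only at e
  linarith

theorem infD_left {d : ℕ} {c c' : ℝ} (h : (D (d + 1) c').Infinite) (e : 2 * c = c') :
    (D d c).Infinite := by
  refine Set.infinite_of_injOn_mapsTo (f := fun t : ℝ => t / 2) ?_ (fun t ht => famD.L ht e) h
  intro s _ t _ e
  simp only at e
  linarith

theorem infD_right {d : ℕ} {c c' : ℝ} (h : (D d c').Infinite) (e : 2 * c - d - 2 = c') :
    (D (d + 1) c).Infinite := by
  refine Set.infinite_of_injOn_mapsTo (f := fun t : ℝ => (1 + t) / 2) ?_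
    (fun t ht => famD.R ht e) h
  intro s _ t _ e
  simp only at e
  linarith

/-- Infinitely many accumulation points of the state `(d, c)` give infinitely many accumulation
points of the level set at `(j + c) / 2 ^ n`. -/
def EmbD (d n : ℕ) (j : ℤ) : Prop :=
  (d + n) % 2 = 0 ∧ ∀ c : ℝ, (D d c).Infinite → (D 0 ((j + c) / 2 ^ n)).Infinite

theorem embD_zero : EmbD 0 0 0 := ⟨rfl, fun c h => by simpa using h⟩

theorem EmbD.left {d n : ℕ} {j : ℤ} (h : EmbD d n j) : EmbD (d + 1) (n + 1) (2 * j) := by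
  refine ⟨by have := h.1; omega, fun c hc => ?_⟩
  have h1 := h.2 (c / 2) (infD_left hc (by ring))
  have e : ((j : ℝ) + c / 2) / 2 ^ n = (((2 * j : ℤ) : ℝ) + c) / 2 ^ (n + 1) := by
    push_cast; rw [pow_succ]; field_simp
  rwa [e] at h1

theorem EmbD.right {d n : ℕ} {j : ℤ} (h : EmbD (d + 1) n j) :
    EmbD d (n + 1) (2 * j + d + 2) := by
  refine ⟨by have := h.1; omega, fun c hc => ?_⟩
  have h1 := h.2 ((c + d + 2) / 2) (infD_right hc (by ring))
  have e : ((j : ℝ) + (c + d + 2) / 2) / 2 ^ n =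
      (((2 * j + d + 2 : ℤ) : ℝ) + c) / 2 ^ (n + 1) := by
    push_cast; rw [pow_succ]; field_simp; ring
  rwa [e] at h1

theorem embD_follow (y : ℝ) (h0 : 0 ≤ y) (h1 : y ≤ 2 / 3) (n : ℕ) :
    ∃ d j, d ≤ n ∧ EmbD d n j ∧ (S d (2 ^ n * y - j)).Nonempty := by
  induction n with
  | zero =>
    exact ⟨0, 0, le_rfl, embD_zero, S_nonempty' _ _ (by simpa using h0) (by simpa using h1)⟩
  | succ n ih =>
    obtain ⟨d, j, hd, he, t, ht⟩ := ih
    have e1 : 2 * (2 ^ n * y - j) = 2 ^ (n + 1) * y - ((2 * j : ℤ) : ℝ) := by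
      push_cast; ring
    rcases d with _ | d
    · refine ⟨1, 2 * j, by omega, he.left, ?_⟩
      rw [← e1]
      rcases S_cases_zero ht with h | h
      · exact ⟨_, h⟩
      · exact ⟨_, h⟩
    · rcases S_cases ht with h | h
      · exact ⟨d + 2, 2 * j, by omega, he.left, _, by rw [← e1]; exact h⟩
      · refine ⟨d, 2 * j + d + 2, by omega, he.right, 2 * t - 1, ?_⟩
        convert h using 2
        push_cast; ring

theorem embD_descend (d : ℕ) : ∀ (n : ℕ) (j : ℤ), EmbD d n j → ∃ (n' : ℕ) (j' : ℤ), EmbD 1 n' j' ∧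
    (j : ℝ) / 2 ^ n ≤ j' / 2 ^ n' ∧ ((j' : ℝ) + 1) / 2 ^ n' ≤ (j + d + 1) / 2 ^ n := by
  induction d with
  | zero =>
    intro n j h
    have hp : (0 : ℝ) < 2 ^ n := by positivity
    refine ⟨n + 1, 2 * j, h.left, ?_, ?_⟩
    · push_cast; rw [pow_succ]; apply le_of_eq; field_simp
    · push_cast; rw [pow_succ, div_le_div_iff₀ (by positivity) hp]; nlinarith
  | succ d ih =>
    intro n j h
    have hp : (0 : ℝ) < 2 ^ n := by positivity
    have hd : (0 : ℝ) ≤ d := Nat.cast_nonneg d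
    rcases d with _ | d
    · refine ⟨n, j, h, le_rfl, ?_⟩
      exact div_le_div_of_nonneg_right (by push_cast; linarith) hp.le
    · obtain ⟨n', j', he, h1, h2⟩ := ih _ _ h.right
      refine ⟨n', j', he, le_trans ?_ h1, le_trans h2 ?_⟩
      · push_cast at hd ⊢; rw [pow_succ, div_le_div_iff₀ hp (by positivity)]; nlinarith
      · push_cast at hd ⊢; rw [pow_succ, div_le_div_iff₀ (by positivity) hp]; nlinarith

theorem embD_interval {a b : ℝ} (ha : 0 ≤ a) (hab : a < b) (hb : b ≤ 2 / 3) :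
    ∃ (n : ℕ) (j : ℤ), EmbD 1 n j ∧ a < (j : ℝ) / 2 ^ n ∧ ((j : ℝ) + 1) / 2 ^ n < b := by
  have hlim : Filter.Tendsto (fun n : ℕ => (n : ℝ) * (1 / 2) ^ n + (1 / 2) ^ n) Filter.atTop
      (nhds (0 + 0)) :=
    (tendsto_self_mul_const_pow_of_lt_one (by norm_num) (by norm_num)).add
      (tendsto_pow_atTop_nhds_zero_of_lt_one (by norm_num) (by norm_num))
  obtain ⟨n, hn⟩ := (hlim.eventually (gt_mem_nhds (show (0 : ℝ) + 0 < (b - a) / 2 by
    linarith))).exists
  obtain ⟨d, j, hd, he, hne⟩ := embD_follow ((a + b) / 2) (by linarith) (by linarith) n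
  obtain ⟨n', j', he', h1, h2⟩ := embD_descend d n j he
  have hp : (0 : ℝ) < 2 ^ n := by positivity
  have hdn : (d : ℝ) ≤ n := by exact_mod_cast hd
  have c0 : 0 ≤ 2 ^ n * ((a + b) / 2) - j := by
    by_contra hc
    rw [S_empty_neg (not_le.1 hc)] at hne
    exact not_nonempty_empty hne
  have c1 : 2 ^ n * ((a + b) / 2) - j ≤ d + 1 := by
    by_contra hc
    have h5 : (2 : ℝ) / 3 / 2 ^ d ≤ 2 / 3 :=
      div_le_self (by norm_num) (one_le_pow₀ (by norm_num))
    rw [S_empty_big (by linarith [not_le.1 hc])] at hne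
    exact not_nonempty_empty hne
  have hn' : (n : ℝ) + 1 < (b - a) / 2 * 2 ^ n := by
    rw [one_div_pow, ← div_lt_iff₀ hp] at *
    rw [add_div]
    simpa [div_eq_mul_inv] using hn
  refine ⟨n', j', he', lt_of_lt_of_le ?_ h1, lt_of_le_of_lt h2 ?_⟩
  · rw [lt_div_iff₀ hp]; nlinarith
  · rw [div_lt_iff₀ hp]; nlinarith

theorem dense_main {a b : ℝ} (ha : 0 ≤ a) (hab : a < b) (hb : b ≤ 2 / 3) :
    ∃ y ∈ Ioo a b, y ∈ Sco ∧ (derivedSet (levelSet y)).Infinite := by
  obtain ⟨n, j, he, h1, h2⟩ := embD_interval ha hab hb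
  have hp : (0 : ℝ) < 2 ^ n := by positivity
  have l1 : (j : ℝ) / 2 ^ n ≤ (j + (15281 / 266305 : ℝ)) / 2 ^ n :=
    div_le_div_of_nonneg_right (by linarith) hp.le
  have l2 : (j + (15281 / 266305 : ℝ)) / 2 ^ n ≤ ((j : ℝ) + 1) / 2 ^ n :=
    div_le_div_of_nonneg_right (by linarith) hp.le
  have h3 : (derivedSet (levelSet ((j + (15281 / 266305 : ℝ)) / 2 ^ n))).Infinite := by
    rw [← S_zero]; exact he.2 _ inf0
  refine ⟨_, ⟨by linarith, by linarith⟩, ⟨⟨by linarith, by linarith⟩, ?_,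
    h3.mono (derived_level_subset _)⟩, h3⟩
  rw [← S_zero]
  exact cnt_pull n 0 (by have := he.1; omega) j

end Pool.Agent.FS.TakagiRank
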