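import Pool.Agent.FS.TakagiRank.Count

namespace Pool.Agent.FS.TakagiRank

open Set Pool.Agent.Lib.MP_4a5b11_an

/-- Residues at the odd positions of the period. -/
def A (r : ℤ) : Prop := r = 18602 ∨ r = 74408 ∨ r = 31327 ∨ r = 125308 ∨ r = 234927 ∨ r = 140793 ∨ r = 30562 ∨ r = 122248 ∨ r = 222687 ∨ r = 91833 ∨ r = 101027 ∨ r = 137803

/-- Residues at the even positions of the period. -/
def B (r : ℤ) : Prop := r = 9301 ∨ r = 37204 ∨ r = 148816 ∨ r = 62654 ∨ r = 250616 ∨ r = 203549 ∨ r = 15281 ∨ r = 61124 ∨ r = 244496 ∨ r = 179069 ∨ r = 183666 ∨ r = 202054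

theorem A_step (n k : ℤ) (h : A (n % 266305)) : B ((2 * n - k * 266305) % 266305) := by
  unfold A at h
  unfold B
  rcases h with h | h | h | h | h | h | h | h | h | h | h | h <;> omega

theorem B_step (n k : ℤ) (h : B (n % 266305)) : A ((2 * n - k * 266305) % 266305) := by
  unfold B at h
  unfold A
  rcases h with h | h | h | h | h | h | h | h | h | h | h | h <;> omega

/-- States reached along the periodic tail. -/
def Inv (d : ℕ) (n : ℤ) : Prop :=
  (d % 2 = 0 ∧ A (n % 266305)) ∨ (d % 2 = 1 ∧ B (n % 266305))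

theorem Inv.step {d d' : ℕ} {n : ℤ} (h : Inv d n) (hd : (d + d') % 2 = 1) (k : ℤ) :
    Inv d' (2 * n - k * 266305) := by
  rcases h with ⟨h1, h2⟩ | ⟨h1, h2⟩
  · exact Or.inr ⟨by omega, A_step n k h2⟩
  · exact Or.inl ⟨by omega, B_step n k h2⟩

theorem cnt_level {n : ℤ} (h : Inv 0 n) : (S 0 ((n : ℝ) / 266305)).Countable := by
  rcases lt_or_ge n 0 with h0 | h0
  · apply countable_of_empty
    apply S_empty_neg
    have : (n : ℝ) < 0 := by exact_mod_cast h0
    linarith
  rcases lt_or_ge 177536 n with h1 | h1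
  · apply countable_of_empty
    apply S_empty_big
    have : (177537 : ℝ) ≤ n := by exact_mod_cast h1
    norm_num
    linarith
  · have h2 : n = 18602 ∨ n = 74408 ∨ n = 31327 ∨ n = 125308 ∨ n = 140793 ∨ n = 30562 ∨ n = 122248 ∨ n = 91833 ∨ n = 101027 ∨ n = 137803 := by
      rcases h with ⟨_, h⟩ | ⟨h, _⟩
      · unfold A at h
        omega
      · omega
    rcases h2 with h | h | h | h | h | h | h | h | h | h
    · have e : (n : ℝ) = 18602 := by exact_mod_cast h
      rw [e]; exact c_0_18602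
    · have e : (n : ℝ) = 74408 := by exact_mod_cast h
      rw [e]; exact c_0_74408
    · have e : (n : ℝ) = 31327 := by exact_mod_cast h
      rw [e]; exact c_0_31327
    · have e : (n : ℝ) = 125308 := by exact_mod_cast h
      rw [e]; exact c_0_125308
    · have e : (n : ℝ) = 140793 := by exact_mod_cast h
      rw [e]; exact c_0_140793
    · have e : (n : ℝ) = 30562 := by exact_mod_cast h
      rw [e]; exact c_0_30562
    · have e : (n : ℝ) = 122248 := by exact_mod_cast h
      rw [e]; exact c_0_122248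
    · have e : (n : ℝ) = 91833 := by exact_mod_cast h
      rw [e]; exact c_0_91833
    · have e : (n : ℝ) = 101027 := by exact_mod_cast h
      rw [e]; exact c_0_101027
    · have e : (n : ℝ) = 137803 := by exact_mod_cast h
      rw [e]; exact c_0_137803

theorem A_small {m : ℤ} (h : A (m % 266305)) (h0 : 0 ≤ m) (h1 : m < 44385) :
    m = 18602 ∨ m = 31327 ∨ m = 30562 := by
  rw [Int.emod_eq_of_lt h0 (by omega)] at h
  unfold A at h
  omega

theorem B_small {m : ℤ} (h : B (m % 266305)) (h0 : 0 ≤ m) (h1 : m < 44385) :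
    m = 9301 ∨ m = 37204 ∨ m = 15281 := by
  rw [Int.emod_eq_of_lt h0 (by omega)] at h
  unfold B at h
  omega

theorem branch_cases {d : ℕ} {n m : ℤ} (hm : m = 2 * n - (d + 2) * 266305) (hs : Inv d m)
    (h0 : 0 ≤ m) (key : ∀ M : ℤ, (2 : ℝ) / 3 / 2 ^ (d + 2) * 266305 < M → m < M) :
    (d = 0 ∧ (n = 275606 ∨ n = 281586)) ∨ (d = 1 ∧ (n = 404108 ∨ n = 407098)) := by
  have bound : ∀ (e : ℕ) (M : ℤ), e ≤ d + 2 → (2 : ℝ) / 3 / 2 ^ e * 266305 < M → m < M := by
    intro e M he hM
    refine key M (lt_of_le_of_lt ?_ hM)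
    have h5 : (2 : ℝ) ^ e ≤ 2 ^ (d + 2) := pow_le_pow_right₀ (by norm_num) he
    have h6 : (2 : ℝ) / 3 / 2 ^ (d + 2) ≤ 2 / 3 / 2 ^ e :=
      div_le_div_of_nonneg_left (by norm_num) (by positivity) h5
    linarith
  have k2 : m < 44385 := bound 2 44385 (by omega) (by norm_num)
  have k3 : 1 ≤ d → m < 22193 := fun h => bound 3 22193 (by omega) (by norm_num)
  have k4 : 2 ≤ d → m < 11097 := fun h => bound 4 11097 (by omega) (by norm_num)
  have k5 : 3 ≤ d → m < 5549 := fun h => bound 5 5549 (by omega) (by norm_num)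
  clear bound key
  rcases hs with ⟨hp, hs⟩ | ⟨hp, hs⟩
  · have h3 := A_small hs h0 k2
    clear hs
    omega
  · have h3 := B_small hs h0 k2
    clear hs
    omega

theorem cnt_branch {d : ℕ} {n : ℤ} (h : Inv (d + 1) n) (h0 : 0 ≤ 2 * n - (d + 2) * 266305)
    (h1 : 2 * ((n : ℝ) / 266305) ≤ ((d + 2 : ℕ) : ℝ) + 2 / 3 / 2 ^ (d + 2)) :
    (S (d + 1) ((n : ℝ) / 266305)).Countable := by
  have hs := h.step (d' := d) (by omega) (d + 2)
  have key : ∀ M : ℤ, (2 : ℝ) / 3 / 2 ^ (d + 2) * 266305 < M → 2 * n - (d + 2) * 266305 < M := by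
    intro M hM
    have : 2 * (n : ℝ) - (d + 2) * 266305 < M := by
      push_cast at h1
      linarith
    exact_mod_cast this
  rcases branch_cases rfl hs h0 key with ⟨rfl, h | h⟩ | ⟨rfl, h | h⟩
  · have e : (n : ℝ) = 275606 := by exact_mod_cast h
    rw [e]; exact c_1_275606
  · have e : (n : ℝ) = 281586 := by exact_mod_cast h
    rw [e]; exact c_1_281586
  · have e : (n : ℝ) = 404108 := by exact_mod_cast h
    rw [e]; exact c_2_404108
  · have e : (n : ℝ) = 407098 := by exact_mod_cast h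
    rw [e]; exact c_2_407098

theorem cnt_inv (d : ℕ) (n : ℤ) (h : Inv d n) : (S d ((n : ℝ) / 266305)).Countable := by
  refine countable_of_chain {p : ℕ × ℤ | Inv p.1 p.2} (fun p => S p.1 ((p.2 : ℝ) / 266305))
    (fun p => S_subset _ _) ?_ (d, n) h
  rintro ⟨d, n⟩ h
  rcases d with _ | d
  · exact ⟨(0, n), h, sub_of_countable (cnt_level h)⟩
  have hI : Inv (d + 1) n := h
  rcases lt_or_ge (2 * n - (d + 2) * 266305) 0 with h0 | h0
  · refine ⟨(d + 2, 2 * n - 0 * 266305), hI.step (by omega) 0, ?_⟩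
    refine sub_L (Sub.refl _) (by push_cast; ring) ?_
    have : 2 * (n : ℝ) - (d + 2) * 266305 < 0 := by exact_mod_cast h0
    linarith
  rcases lt_or_ge (((d + 2 : ℕ) : ℝ) + 2 / 3 / 2 ^ (d + 2)) (2 * ((n : ℝ) / 266305)) with h1 | h1
  · refine ⟨(d, 2 * n - (d + 2) * 266305), hI.step (by omega) (d + 2), ?_⟩
    exact sub_R (Sub.refl _) (by push_cast; ring) h1
  · exact ⟨(d + 1, n), h, sub_of_countable (cnt_branch hI h0 h1)⟩

theorem cnt_pull (n : ℕ) : ∀ d : ℕ, (d + n) % 2 = 1 → ∀ k : ℤ,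
    (S d ((k + (15281 / 266305 : ℝ)) / 2 ^ n)).Countable := by
  induction n with
  | zero =>
    intro d hd k
    have h := cnt_inv d (k * 266305 + 15281) (Or.inr ⟨by omega, by unfold B; omega⟩)
    convert h using 2
    push_cast
    ring
  | succ n ih =>
    intro d hd k
    have e1 : 2 * ((k + (15281 / 266305 : ℝ)) / 2 ^ (n + 1)) =
        (k + (15281 / 266305 : ℝ)) / 2 ^ n := by
      rw [pow_succ]; field_simp
    rcases d with _ | d
    · apply cnt_zero
      rw [e1]; exact ih 1 (by omega) k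
    · apply cnt_step
      · rw [e1]; exact ih (d + 2) (by omega) k
      · have e2 : (k + (15281 / 266305 : ℝ)) / 2 ^ n - d - 2 =
            (((k - (d + 2) * 2 ^ n : ℤ) : ℝ) + (15281 / 266305 : ℝ)) / 2 ^ n := by
          push_cast; field_simp; ring
        rw [e1, e2]; exact ih d (by omega) _

end Pool.Agent.FS.TakagiRank
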